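import Mathlib

/-!
Block sequences of finite sets of natural numbers, finite unions, and almost refinement.
-/

namespace Pool.Agent.Helper55

open Set Filter

/-- A block sequence: nonempty finite sets, each lying completely before the next one. -/
def Block (t : ℕ → Finset ℕ) : Prop :=
  (∀ k, (t k).Nonempty) ∧ ∀ k, ∀ i ∈ t k, ∀ j ∈ t (k+1), i < j

/-- Finite (nonempty) unions of members of the sequence. -/
def FU (t : ℕ → Finset ℕ) : Set (Finset ℕ) :=
  {s | ∃ F : Finset ℕ, F.Nonempty ∧ s = F.biUnion t}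

/-- Almost refinement. -/
def AR (t' t : ℕ → Finset ℕ) : Prop := ∀ᶠ k in atTop, t' k ∈ FU t

/-- The union of the blocks with index in `L`. -/
def UnL (t : ℕ → Finset ℕ) (L : Set ℕ) : Set ℕ := {n | ∃ k ∈ L, n ∈ t k}

/-- The union of all blocks. -/
def Un (t : ℕ → Finset ℕ) : Set ℕ := {n | ∃ k, n ∈ t k}

lemma UnL_univ (t : ℕ → Finset ℕ) : UnL t univ = Un t := by
  ext n; simp [UnL, Un]

/-- Equality up to finitely many elements. -/
def AE (A B : Set ℕ) : Prop := (A \ B).Finite ∧ (B \ A).Finite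

lemma AE.refl (A : Set ℕ) : AE A A := by simp [AE]

lemma AE.symm {A B : Set ℕ} (h : AE A B) : AE B A := ⟨h.2, h.1⟩

lemma sdiff_finite_trans {ι : Type*} {A B C : Set ι} (h : (A \ B).Finite) (h' : (B \ C).Finite) :
    (A \ C).Finite := by
  refine (h.union h').subset ?_
  rintro n ⟨h1, h2⟩
  by_cases hb : n ∈ B
  · exact Or.inr ⟨hb, h2⟩
  · exact Or.inl ⟨h1, hb⟩

lemma AE.trans {A B C : Set ℕ} (h : AE A B) (h' : AE B C) : AE A C :=
  ⟨sdiff_finite_trans h.1 h'.1, sdiff_finite_trans h'.2 h.2⟩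

lemma Block.lt {t : ℕ → Finset ℕ} (ht : Block t) {k l : ℕ} (hkl : k < l) {i j : ℕ}
    (hi : i ∈ t k) (hj : j ∈ t l) : i < j := by
  induction l, hkl using Nat.le_induction generalizing j with
  | base => exact ht.2 k i hi j hj
  | succ l hl ih =>
    obtain ⟨m, hm⟩ := ht.1 l
    exact (ih hm).trans (ht.2 l m hm j hj)

lemma Block.index_eq {t : ℕ → Finset ℕ} (ht : Block t) {k l i : ℕ}
    (hi : i ∈ t k) (hj : i ∈ t l) : k = l := by
  rcases lt_trichotomy k l with h | h | h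
  · exact absurd (ht.lt h hi hj) (lt_irrefl _)
  · exact h
  · exact absurd (ht.lt h hj hi) (lt_irrefl _)

lemma Block.le_of_mem {t : ℕ → Finset ℕ} (ht : Block t) {k i : ℕ} (hi : i ∈ t k) : k ≤ i := by
  induction k generalizing i with
  | zero => exact Nat.zero_le _
  | succ k ih =>
    obtain ⟨m, hm⟩ := ht.1 k
    exact lt_of_le_of_lt (ih hm) (ht.2 k m hm i hi)

lemma Block.infinite_UnL {t : ℕ → Finset ℕ} (ht : Block t) {L : Set ℕ} (hL : L.Infinite) :
    (UnL t L).Infinite := by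
  refine Set.infinite_of_forall_exists_gt fun a => ?_
  obtain ⟨k, hk, hak⟩ := hL.exists_gt a
  obtain ⟨m, hm⟩ := ht.1 k
  exact ⟨m, ⟨k, hk, hm⟩, lt_of_lt_of_le hak (ht.le_of_mem hm)⟩

lemma Block.infinite_Un {t : ℕ → Finset ℕ} (ht : Block t) : (Un t).Infinite := by
  rw [← UnL_univ]; exact ht.infinite_UnL infinite_univ

lemma mem_FU_self (t : ℕ → Finset ℕ) (k : ℕ) : t k ∈ FU t :=
  ⟨{k}, by simp, by simp⟩

lemma FU_union {t : ℕ → Finset ℕ} {s s' : Finset ℕ} (h : s ∈ FU t) (h' : s' ∈ FU t) :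
    s ∪ s' ∈ FU t := by
  obtain ⟨F, hF, rfl⟩ := h
  obtain ⟨F', hF', rfl⟩ := h'
  refine ⟨F ∪ F', hF.mono Finset.subset_union_left, ?_⟩
  ext x; simp only [Finset.mem_union, Finset.mem_biUnion]
  constructor
  · rintro (⟨a, ha, hx⟩ | ⟨a, ha, hx⟩)
    · exact ⟨a, Or.inl ha, hx⟩
    · exact ⟨a, Or.inr ha, hx⟩
  · rintro ⟨a, ha | ha, hx⟩
    · exact Or.inl ⟨a, ha, hx⟩
    · exact Or.inr ⟨a, ha, hx⟩

lemma FU_biUnion {t t' : ℕ → Finset ℕ} {F : Finset ℕ} (hF : F.Nonempty)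
    (h : ∀ k ∈ F, t' k ∈ FU t) : F.biUnion t' ∈ FU t := by
  induction hF using Finset.Nonempty.cons_induction with
  | singleton a => simpa using h a (by simp)
  | cons a s ha hs ih =>
    rw [Finset.cons_eq_insert, Finset.biUnion_insert]
    exact FU_union (h a (by simp)) (ih fun k hk => h k (by simp [hk]))

lemma FU_nonempty {t : ℕ → Finset ℕ} (ht : Block t) {s : Finset ℕ} (h : s ∈ FU t) :
    s.Nonempty := by
  obtain ⟨F, ⟨k, hk⟩, rfl⟩ := h
  obtain ⟨m, hm⟩ := ht.1 k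
  exact ⟨m, Finset.mem_biUnion.2 ⟨k, hk, hm⟩⟩

lemma FU_subset_Un {t : ℕ → Finset ℕ} {s : Finset ℕ} (h : s ∈ FU t) : ∀ x ∈ s, x ∈ Un t := by
  obtain ⟨F, -, rfl⟩ := h
  intro x hx
  obtain ⟨k, -, hk⟩ := Finset.mem_biUnion.1 hx
  exact ⟨k, hk⟩

lemma AR.refl (t : ℕ → Finset ℕ) : AR t t := Eventually.of_forall fun k => mem_FU_self t k

/-- Transitivity of almost refinement. -/
lemma AR.trans {r s t : ℕ → Finset ℕ} (hr : Block r) (hs : Block s) (h1 : AR r s) (h2 : AR s t) :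
    AR r t := by
  obtain ⟨K, hK⟩ := eventually_atTop.1 h2
  -- blocks of `r` with all elements beyond the first `K` blocks of `s` only use late blocks of `s`
  obtain ⟨m, hm⟩ := hs.1 K
  have h3 : ∀ᶠ k in atTop, m ≤ k := eventually_ge_atTop m
  filter_upwards [h1, h3] with k hk hmk
  obtain ⟨F, hF, hrF⟩ := hk
  have hFK : ∀ l ∈ F, K ≤ l := by
    intro l hl
    by_contra hlt
    rw [not_le] at hlt
    obtain ⟨i, hi⟩ := hs.1 l
    have h4 : i ∈ r k := by rw [hrF]; exact Finset.mem_biUnion.2 ⟨l, hl, hi⟩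
    have h5 := hr.le_of_mem h4
    have h6 := hs.lt hlt hi hm
    omega
  rw [hrF]
  exact FU_biUnion hF fun l hl => hK l (hFK l hl)

/-- An almost refinement has almost smaller union. -/
lemma AR.sdiff_finite {s t : ℕ → Finset ℕ} (h : AR s t) : (Un s \ Un t).Finite := by
  obtain ⟨K, hK⟩ := eventually_atTop.1 h
  refine ((Finset.range K).biUnion s).finite_toSet.subset ?_
  rintro n ⟨⟨k, hk⟩, hn⟩
  rw [Finset.mem_coe, Finset.mem_biUnion]
  refine ⟨k, ?_, hk⟩
  rw [Finset.mem_range]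
  by_contra hcon
  exact hn (FU_subset_Un (hK k (not_lt.1 hcon)) n hk)

/-- Recursive construction of block sequences. -/
lemma exists_block {P : ℕ → Finset ℕ → Prop}
    (h : ∀ i M, ∃ s : Finset ℕ, s.Nonempty ∧ (∀ x ∈ s, M ≤ x) ∧ P i s) :
    ∃ t, Block t ∧ ∀ i, P i (t i) := by
  choose f hf1 hf2 hf3 using h
  let t : ℕ → Finset ℕ := fun n => Nat.rec (f 0 0) (fun i s => f (i+1) (s.sup id + 1)) n
  have ht0 : t 0 = f 0 0 := rfl
  have hts : ∀ i, t (i+1) = f (i+1) ((t i).sup id + 1) := fun i => rfl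
  refine ⟨t, ⟨?_, ?_⟩, ?_⟩
  · intro k
    cases k with
    | zero => rw [ht0]; exact hf1 _ _
    | succ k => rw [hts]; exact hf1 _ _
  · intro k i hi j hj
    rw [hts] at hj
    have h1 := hf2 _ _ j hj
    have h2 : i ≤ (t k).sup id := Finset.le_sup (f := id) hi
    omega
  · intro k
    cases k with
    | zero => rw [ht0]; exact hf3 _ _
    | succ k => rw [hts]; exact hf3 _ _

/-- Finite total quasi-orders have a least element. -/
lemma exists_least {σ : ℕ → (ℕ → Finset ℕ)} (hσ : ∀ i, Block (σ i))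
    (hch : ∀ i j, AR (σ i) (σ j) ∨ AR (σ j) (σ i)) (N : ℕ) :
    ∃ i, i ≤ N ∧ ∀ j ≤ N, AR (σ i) (σ j) := by
  induction N with
  | zero => exact ⟨0, le_rfl, fun j hj => by rw [Nat.le_zero.1 hj]; exact AR.refl _⟩
  | succ N ih =>
    obtain ⟨i, hi, hmin⟩ := ih
    rcases hch i (N+1) with h | h
    · refine ⟨i, hi.trans (Nat.le_succ _), fun j hj => ?_⟩
      rcases Nat.lt_or_ge j (N+1) with h' | h'
      · exact hmin j (by omega)
      · rw [show j = N+1 by omega]; exact h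
    · refine ⟨N+1, le_rfl, fun j hj => ?_⟩
      rcases Nat.lt_or_ge j (N+1) with h' | h'
      · exact (h.trans (hσ _) (hσ _) (hmin j (by omega)))
      · rw [show j = N+1 by omega]; exact AR.refl _

/-- Countable chains have lower bounds. -/
lemma exists_lower_bound {σ : ℕ → (ℕ → Finset ℕ)} (hσ : ∀ i, Block (σ i))
    (hch : ∀ i j, AR (σ i) (σ j) ∨ AR (σ j) (σ i)) :
    ∃ t, Block t ∧ ∀ j, AR t (σ j) := by
  have key : ∀ i M, ∃ s : Finset ℕ, s.Nonempty ∧ (∀ x ∈ s, M ≤ x) ∧ ∀ j ≤ i, s ∈ FU (σ j) := by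
    intro i M
    obtain ⟨a, ha, hmin⟩ := exists_least hσ hch i
    have h1 : ∀ᶠ k in atTop, ∀ j ∈ Finset.range (i+1), σ a k ∈ FU (σ j) := by
      rw [Filter.eventually_all_finset]
      intro j hj
      exact hmin j (by simpa [Nat.lt_succ_iff] using hj)
    obtain ⟨k, hk1, hk2⟩ := (h1.and (eventually_ge_atTop M)).exists
    refine ⟨σ a k, (hσ a).1 k, fun x hx => hk2.trans ((hσ a).le_of_mem hx), fun j hj => hk1 j ?_⟩
    simpa [Nat.lt_succ_iff] using hj
  obtain ⟨t, ht, hP⟩ := exists_block key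
  refine ⟨t, ht, fun j => ?_⟩
  filter_upwards [eventually_ge_atTop j] with k hk
  exact hP k j hk

/-- Merging consecutive pairs of blocks. -/
def Merge (t : ℕ → Finset ℕ) : ℕ → Finset ℕ := fun i => t (2*i) ∪ t (2*i+1)

lemma Block.merge {t : ℕ → Finset ℕ} (ht : Block t) : Block (Merge t) := by
  refine ⟨fun k => (ht.1 (2*k)).mono Finset.subset_union_left, ?_⟩
  intro k i hi j hj
  rw [Merge, Finset.mem_union] at hi hj
  rcases hi with hi | hi <;> rcases hj with hj | hj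
  · exact ht.lt (by omega) hi hj
  · exact ht.lt (by omega) hi hj
  · exact ht.lt (by omega) hi hj
  · exact ht.lt (by omega) hi hj

lemma merge_mem_FU (t : ℕ → Finset ℕ) (i : ℕ) : Merge t i ∈ FU t :=
  FU_union (mem_FU_self _ _) (mem_FU_self _ _)

lemma AR_merge (t : ℕ → Finset ℕ) : AR (Merge t) t := Eventually.of_forall (merge_mem_FU t)

lemma Block.subseq {t : ℕ → Finset ℕ} (ht : Block t) {f : ℕ → ℕ} (hf : StrictMono f) :
    Block (fun k => t (f k)) :=
  ⟨fun _ => ht.1 _, fun k _ hi _ hj => ht.lt (hf (Nat.lt_succ_self k)) hi hj⟩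

/-- An almost refinement of the merged sequence is almost a union over a pair-closed set. -/
lemma exists_index_set {s t : ℕ → Finset ℕ} (hs : Block s) (h : AR s (Merge t)) :
    ∃ L : Set ℕ, L.Infinite ∧ (∀ i, 2*i ∈ L ↔ 2*i+1 ∈ L) ∧ AE (Un s) (UnL t L) := by
  obtain ⟨K, hK⟩ := eventually_atTop.1 h
  choose! F hF1 hF2 using hK
  let P : Set ℕ := {i | ∃ k, K ≤ k ∧ i ∈ F k}
  have hun : ∀ n, (∃ k, K ≤ k ∧ n ∈ s k) ↔ n ∈ UnL t {l | l / 2 ∈ P} := by
    intro n
    constructor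
    · rintro ⟨k, hk, hn⟩
      rw [hF2 k hk, Finset.mem_biUnion] at hn
      obtain ⟨i, hi, hn⟩ := hn
      rw [Merge, Finset.mem_union] at hn
      rcases hn with hn | hn
      · exact ⟨2*i, ⟨k, hk, by rwa [show 2*i/2 = i by omega]⟩, hn⟩
      · exact ⟨2*i+1, ⟨k, hk, by rwa [show (2*i+1)/2 = i by omega]⟩, hn⟩
    · rintro ⟨l, ⟨k, hk, hl⟩, hn⟩
      refine ⟨k, hk, ?_⟩
      rw [hF2 k hk, Finset.mem_biUnion]
      refine ⟨l/2, hl, ?_⟩
      rw [Merge, Finset.mem_union]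
      rcases Nat.even_or_odd' l with ⟨c, hc | hc⟩
      · left; rwa [show 2*(l/2) = l by omega]
      · right; rwa [show 2*(l/2)+1 = l by omega]
  have hAE : AE (Un s) (UnL t {l | l / 2 ∈ P}) := by
    constructor
    · refine ((Finset.range K).biUnion s).finite_toSet.subset ?_
      rintro n ⟨⟨k, hk⟩, hn⟩
      rw [Finset.mem_coe, Finset.mem_biUnion]
      refine ⟨k, ?_, hk⟩
      rw [Finset.mem_range]
      by_contra hcon
      exact hn ((hun n).1 ⟨k, not_lt.1 hcon, hk⟩)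
    · refine Set.finite_empty.subset ?_
      rintro n ⟨h1, h2⟩
      obtain ⟨k, -, hk⟩ := (hun n).2 h1
      exact h2 ⟨k, hk⟩
  refine ⟨{l | l / 2 ∈ P}, ?_, ?_, hAE⟩
  · intro hfin
    have h1 : (UnL t {l | l / 2 ∈ P}).Finite := by
      refine (hfin.biUnion fun l _ => (t l).finite_toSet).subset ?_
      rintro n ⟨l, hl, hn⟩
      exact mem_iUnion₂.2 ⟨l, hl, hn⟩
    have h2 : (Un s).Finite := (h1.union hAE.1).subset fun n hn => by
      by_cases h : n ∈ UnL t {l | l / 2 ∈ P}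
      · exact Or.inl h
      · exact Or.inr ⟨hn, h⟩
    exact hs.infinite_Un h2
  · intro i
    show 2*i/2 ∈ P ↔ (2*i+1)/2 ∈ P
    rw [show 2*i/2 = i by omega, show (2*i+1)/2 = i by omega]

/-- Almost inclusion of unions gives almost inclusion of the index sets. -/
lemma index_sdiff_finite {t : ℕ → Finset ℕ} (ht : Block t) {L L' : Set ℕ}
    (h : (UnL t L \ UnL t L').Finite) : (L \ L').Finite := by
  by_contra hinf
  have hinf : (L \ L').Infinite := hinf
  have h1 := ht.infinite_UnL hinf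
  refine h1 (h.subset ?_)
  rintro n ⟨k, hk, hn⟩
  refine ⟨⟨k, hk.1, hn⟩, ?_⟩
  rintro ⟨l, hl, hnl⟩
  exact hk.2 (ht.index_eq hn hnl ▸ hl)

/-- For every infinite set `z` and every block sequence there is a refinement whose union
does not almost contain `z`. -/
lemma exists_avoid {t : ℕ → Finset ℕ} (ht : Block t) {z : Set ℕ} (hz : z.Infinite) :
    ∃ s, Block s ∧ (∀ k, s k ∈ FU t) ∧ (z \ Un s).Infinite := by
  have h0 : Block (fun k => t (2*k)) := ht.subseq (f := fun k => 2*k) (fun a b h => by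
    show 2*a < 2*b
    omega)
  have h1 : Block (fun k => t (2*k+1)) := ht.subseq (f := fun k => 2*k+1) (fun a b h => by
    show 2*a+1 < 2*b+1
    omega)
  by_cases hcase : (z \ Un (fun k => t (2*k))).Infinite
  · exact ⟨_, h0, fun k => mem_FU_self t _, hcase⟩
  · refine ⟨_, h1, fun k => mem_FU_self t _, ?_⟩
    rw [not_infinite] at hcase
    refine (hz.sdiff hcase).mono ?_
    rintro n ⟨hn1, hn2⟩
    refine ⟨hn1, ?_⟩
    rintro ⟨k, hk⟩
    refine hn2 ⟨hn1, ?_⟩
    rintro ⟨l, hl⟩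
    have := ht.index_eq hk hl
    omega

lemma refines_trans {r s t : ℕ → Finset ℕ} (h1 : ∀ k, r k ∈ FU s) (h2 : ∀ k, s k ∈ FU t) :
    ∀ k, r k ∈ FU t := by
  intro k
  obtain ⟨F, hF, h⟩ := h1 k
  rw [h]
  exact FU_biUnion hF fun l _ => h2 l

end Pool.Agent.Helper55
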