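import Mathlib

/-!
Open covers of a topological space and splittability properties
(selection principles), as in the problem file of MP_7b70e8_gt.
-/

namespace Pool.Agent.Helper55

variable (X : Type*) [TopologicalSpace X]

/-- The open covers of `X` which do not contain `X` itself as a member. -/
def OpenCovers : Set (Set (Set X)) :=
  {U | (∀ u ∈ U, IsOpen u) ∧ ⋃₀ U = Set.univ ∧ Set.univ ∉ U}

/-- Open large covers: every point lies in infinitely many members. -/
def LambdaCovers : Set (Set (Set X)) :=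
  {U | U ∈ OpenCovers X ∧ ∀ x : X, {u ∈ U | x ∈ u}.Infinite}

/-- Open omega-covers: every finite set is contained in some member. -/
def OmegaCovers : Set (Set (Set X)) :=
  {U | U ∈ OpenCovers X ∧ ∀ F : Set X, F.Finite → ∃ u ∈ U, F ⊆ u}

/-- Open tau-covers: large, and for all `x`, `y` one of the two families
`{u ∈ U | x ∈ u, y ∉ u}` and `{u ∈ U | y ∈ u, x ∉ u}` is finite. -/
def TauCovers : Set (Set (Set X)) :=
  {U | U ∈ OpenCovers X ∧ (∀ x : X, {u ∈ U | x ∈ u}.Infinite) ∧
    ∀ x y : X, {u ∈ U | x ∈ u ∧ y ∉ u}.Finite ∨ {u ∈ U | y ∈ u ∧ x ∉ u}.Finite}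

/-- Open gamma-covers: infinite, and every point lies in all but finitely many members. -/
def GammaCovers : Set (Set (Set X)) :=
  {U | U ∈ OpenCovers X ∧ U.Infinite ∧ ∀ x : X, {u ∈ U | x ∉ u}.Finite}

variable {X}

/-- `Split 𝒜 ℬ`: every member of `𝒜` is a union of two disjoint subfamilies, each of which
contains a member of `ℬ` as a subfamily. -/
def Split (𝒜 ℬ : Set (Set (Set X))) : Prop :=
  ∀ U ∈ 𝒜, ∃ V W : Set (Set X), V ∪ W = U ∧ Disjoint V W ∧
    (∃ V' ∈ ℬ, V' ⊆ V) ∧ (∃ W' ∈ ℬ, W' ⊆ W)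

end Pool.Agent.Helper55
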