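import Pool.Agent.Helper55.Blocks

/-!
An idempotent ultrafilter on finite sets, concentrated on the finite unions of a block sequence.
-/

namespace Pool.Agent.Helper55

open Set Filter

/-- The semigroup of finite subsets of the natural numbers under union. -/
@[reducible] def finsetSemigroup : Semigroup (Finset ℕ) where
  mul s t := s ∪ t
  mul_assoc := Finset.union_assoc

/-- Idempotent ultrafilter, in a form that does not mention the semigroup structure. -/
lemma exists_idempotent {t : ℕ → Finset ℕ} (ht : Block t) :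
    ∃ p : Ultrafilter (Finset ℕ), (∀ m, ∀ᶠ s in (p : Filter (Finset ℕ)), s ∈ FU t ∧ ∀ x ∈ s, m ≤ x) ∧
      ∀ P : Finset ℕ → Prop, (∀ᶠ s in (p : Filter (Finset ℕ)), P s) →
        ∀ᶠ s in (p : Filter (Finset ℕ)), ∀ᶠ s' in (p : Filter (Finset ℕ)), P (s ∪ s') := by
  let _ : Semigroup (Finset ℕ) := finsetSemigroup
  let _ : Semigroup (Ultrafilter (Finset ℕ)) := Ultrafilter.semigroup
  let S : Set (Ultrafilter (Finset ℕ)) :=
    ⋂ m : ℕ, {U | ∀ᶠ s in (U : Filter (Finset ℕ)), s ∈ FU t ∧ ∀ x ∈ s, m ≤ x}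
  have h := exists_idempotent_in_compact_subsemigroup (M := Ultrafilter (Finset ℕ)) ?_ S ?_ ?_ ?_
  · obtain ⟨U, hU, hidem⟩ := h
    refine ⟨U, fun m => Set.mem_iInter.1 hU m, fun P hP => ?_⟩
    rw [← hidem] at hP
    exact hP
  · exact Ultrafilter.continuous_mul_left
  · apply IsCompact.nonempty_iInter_of_sequence_nonempty_isCompact_isClosed
    · intro m U hU
      have hU' : ∀ᶠ s in (U : Filter (Finset ℕ)), s ∈ FU t ∧ ∀ x ∈ s, m+1 ≤ x := hU
      show ∀ᶠ s in (U : Filter (Finset ℕ)), s ∈ FU t ∧ ∀ x ∈ s, m ≤ x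
      filter_upwards [hU'] with s hs
      exact ⟨hs.1, fun x hx => (Nat.le_succ m).trans (hs.2 x hx)⟩
    · intro m
      refine ⟨pure (t m), mem_pure.mpr ⟨mem_FU_self t m, fun x hx => ht.le_of_mem hx⟩⟩
    · exact (ultrafilter_isClosed_basic _).isCompact
    · intro m
      apply ultrafilter_isClosed_basic
  · exact IsClosed.isCompact (isClosed_iInter fun i => ultrafilter_isClosed_basic _)
  · intro U hU V hV
    rw [Set.mem_iInter] at *
    intro m
    have h1 : ∀ᶠ s in (U : Filter (Finset ℕ)), s ∈ FU t ∧ ∀ x ∈ s, m ≤ x := hU m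
    have h2 : ∀ᶠ s in (V : Filter (Finset ℕ)), s ∈ FU t ∧ ∀ x ∈ s, m ≤ x := hV m
    show ∀ᶠ s in ((U * V : Ultrafilter (Finset ℕ)) : Filter (Finset ℕ)),
      s ∈ FU t ∧ ∀ x ∈ s, m ≤ x
    rw [Ultrafilter.eventually_mul]
    filter_upwards [h1] with s hs
    filter_upwards [h2] with s' hs'
    refine ⟨FU_union hs.1 hs'.1, fun x hx => ?_⟩
    rcases Finset.mem_union.1 hx with hx | hx
    · exact hs.2 x hx
    · exact hs'.2 x hx

end Pool.Agent.Helper55
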