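import Pool.Agent.Helper55.Prefusion
import Pool.Agent.Helper55.Idem

/-!
The fusion argument: from an omega-cover, produce a subsequence on which the traces of all
later points are either cofinite or equal to their index sets.
-/

namespace Pool.Agent.Helper55

open Set Filter

lemma ult_iff {α : Type*} (p : Ultrafilter α) (P : α → Prop) :
    ∀ᶠ s in (p : Filter α), (P s ↔ ∀ᶠ s' in (p : Filter α), P s') := by
  by_cases h : ∀ᶠ s' in (p : Filter α), P s'
  · filter_upwards [h] with s hs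
    exact iff_of_true hs h
  · have h' := Ultrafilter.eventually_not.2 h
    filter_upwards [h'] with s hs
    exact iff_of_false hs h

lemma fusion {t : ℕ → Finset ℕ} (ht : Block t) (ν : Finset ℕ → ℕ) (x : ℕ → Set ℕ)
    (U : ℕ → Set (Set ℕ)) (hU : ∀ n, OpenFam (U n))
    (h1 : ∀ s ∈ FU t, ∀ B : Set ℕ, Through B s → B ∈ U (ν s))
    (h2 : ∀ j, ∃ M, ∀ s ∈ FU t, (∀ a ∈ s, M ≤ a) → (∀ i < j, x i ∈ U (ν s)) ∧ j ≤ ν s) :
    ∃ (t' : ℕ → Finset ℕ) (n : ℕ → ℕ), Block t' ∧ (∀ k, t' k ∈ FU t) ∧ StrictMono n ∧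
      (∀ i, ∀ᶠ k in atTop, x i ∈ U (n k)) ∧
      ∀ L : Set ℕ, L.Infinite → ∀ B : Set ℕ, AE B (UnL t' L) →
        (∀ᶠ k in atTop, B ∈ U (n k)) ∨ (∀ᶠ k in atTop, (B ∈ U (n k) ↔ k ∈ L)) := by
  classical
  obtain ⟨p, hp1, hp2⟩ := exists_idempotent ht
  choose D hD1 hD2 using fun (n : ℕ) (S : Finset ℕ) => exists_strategy p (hU n) S
  let c : Finset ℕ → Prop := fun S => ∀ᶠ s in (p : Filter (Finset ℕ)), Win p (U (ν s)) S
  let e : Finset ℕ → Prop := fun S => ∀ᶠ s in (p : Filter (Finset ℕ)), c (S ∪ s)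
  have hc : ∀ S, ∀ᶠ s in (p : Filter (Finset ℕ)), (Win p (U (ν s)) S ↔ c S) := fun S =>
    ult_iff p _
  have he : ∀ S, ∀ᶠ s in (p : Filter (Finset ℕ)), (c (S ∪ s) ↔ e S) := fun S =>
    ult_iff p (fun s => c (S ∪ s))
  have hee' : ∀ S, (∀ᶠ s in (p : Filter (Finset ℕ)), e (S ∪ s)) ↔ e S := by
    intro S
    have key : ∀ P : Finset ℕ → Prop, (∀ᶠ s in (p : Filter (Finset ℕ)), P (S ∪ s)) →
        ∀ᶠ s in (p : Filter (Finset ℕ)), ∀ᶠ s' in (p : Filter (Finset ℕ)), P (S ∪ s ∪ s') := by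
      intro P hP
      have := hp2 (fun s => P (S ∪ s)) hP
      filter_upwards [this] with s hs
      filter_upwards [hs] with s' hs'
      rwa [Finset.union_assoc]
    constructor
    · intro h
      by_contra hcon
      have h3 := key (fun s => ¬ c s) (Ultrafilter.eventually_not.2 hcon)
      obtain ⟨s, hs1, hs2⟩ := (h.and h3).exists
      obtain ⟨s', hs3, hs4⟩ := (Filter.Eventually.and hs1 hs2).exists
      exact hs4 hs3
    · intro h
      exact key c h
  have hee : ∀ S, ∀ᶠ s in (p : Filter (Finset ℕ)), (e (S ∪ s) ↔ e S) := by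
    intro S
    filter_upwards [ult_iff p (fun s => e (S ∪ s))] with s hs
    rw [hs]
    exact hee' S
  -- one step of the fusion
  have step : ∀ (M : ℕ) (N : Finset ℕ), ∃ s : Finset ℕ, s ∈ FU t ∧ (∀ a ∈ s, M ≤ a) ∧
      (∀ S ∈ (Finset.range M).powerset, (Win p (U (ν s)) S ↔ c S) ∧ (c (S ∪ s) ↔ e S) ∧
        (e (S ∪ s) ↔ e S)) ∧
      (∀ n ∈ N, n < ν s) ∧
      (∀ n ∈ N, ∀ S ∈ (Finset.range M).powerset, ∀ S' ∈ (Finset.range M).powerset,
        s ∈ D n S S') := by
    intro M N
    have a1 := hp1 M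
    have a2 : ∀ᶠ s in (p : Filter (Finset ℕ)), ∀ S ∈ (Finset.range M).powerset,
        (Win p (U (ν s)) S ↔ c S) ∧ (c (S ∪ s) ↔ e S) ∧ (e (S ∪ s) ↔ e S) :=
      (Filter.eventually_all_finset _).2 fun S _ => (hc S).and ((he S).and (hee S))
    have a3 : ∀ᶠ s in (p : Filter (Finset ℕ)), ∀ n ∈ N, n < ν s := by
      refine (Filter.eventually_all_finset _).2 fun n _ => ?_
      obtain ⟨K, hK⟩ := h2 (n+1)
      filter_upwards [hp1 K] with s hs
      exact (hK s hs.1 hs.2).2
    have a4 : ∀ᶠ s in (p : Filter (Finset ℕ)), ∀ n ∈ N, ∀ S ∈ (Finset.range M).powerset,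
        ∀ S' ∈ (Finset.range M).powerset, s ∈ D n S S' :=
      (Filter.eventually_all_finset _).2 fun n _ =>
        (Filter.eventually_all_finset _).2 fun S _ =>
          (Filter.eventually_all_finset _).2 fun S' _ => hD1 n S S'
    obtain ⟨s, hs1, hs2, hs3, hs4⟩ := (a1.and (a2.and (a3.and a4))).exists
    exact ⟨s, hs1.1, hs1.2, hs2, hs3, hs4⟩
  choose f hf1 hf2 hf3 hf4 hf5 using step
  let st : ℕ → ℕ × Finset ℕ := fun k => Nat.rec (0, ∅)
    (fun _ q => ((f q.1 q.2).sup id + 1, insert (ν (f q.1 q.2)) q.2)) k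
  let Mk : ℕ → ℕ := fun k => (st k).1
  let Nk : ℕ → Finset ℕ := fun k => (st k).2
  let t' : ℕ → Finset ℕ := fun k => f (Mk k) (Nk k)
  have hMs : ∀ k, Mk (k+1) = (t' k).sup id + 1 := fun k => rfl
  have hNs : ∀ k, Nk (k+1) = insert (ν (t' k)) (Nk k) := fun k => rfl
  have hlow : ∀ k, ∀ a ∈ t' k, Mk k ≤ a := fun k => hf2 _ _
  have hhigh : ∀ k, ∀ a ∈ t' k, a < Mk (k+1) := by
    intro k a ha
    rw [hMs]
    exact Nat.lt_succ_of_le (Finset.le_sup (f := id) ha)
  have hFU : ∀ k, t' k ∈ FU t := fun k => hf1 _ _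
  have hne : ∀ k, (t' k).Nonempty := fun k => FU_nonempty ht (hFU k)
  have hMmono : StrictMono Mk := strictMono_nat_of_lt_succ fun k => by
    obtain ⟨a, ha⟩ := hne k
    exact lt_of_le_of_lt (hlow k a ha) (hhigh k a ha)
  have hblock : Block t' := ⟨hne, fun k i hi j hj => lt_of_lt_of_le (hhigh k i hi) (hlow (k+1) j hj)⟩
  have hNmem : ∀ k l, k < l → ν (t' k) ∈ Nk l := by
    intro k l hkl
    induction l, hkl using Nat.le_induction with
    | base => rw [hNs]; exact Finset.mem_insert_self _ _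
    | succ l _ ih => rw [hNs]; exact Finset.mem_insert_of_mem ih
  refine ⟨t', fun k => ν (t' k), hblock, hFU, ?_, ?_, ?_⟩
  · refine strictMono_nat_of_lt_succ fun k => ?_
    exact hf4 (Mk (k+1)) (Nk (k+1)) _ (hNmem k (k+1) (Nat.lt_succ_self k))
  · intro i
    obtain ⟨K, hK⟩ := h2 (i+1)
    filter_upwards [eventually_ge_atTop K] with k hk
    exact (hK (t' k) (hFU k) fun a ha => hk.trans (hblock.le_of_mem ha)).1 i (Nat.lt_succ_self i)
  · intro L hL B hB
    -- from some point on `B` agrees with the union over `L`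
    obtain ⟨j₀, hj₀⟩ : ∃ j₀, ∀ m, j₀ ≤ m → (m ∈ B ↔ m ∈ UnL t' L) := by
      obtain ⟨b, hb⟩ := (hB.1.union hB.2).bddAbove
      refine ⟨b+1, fun m hm => ?_⟩
      by_contra hcon
      have : m ∈ (B \ UnL t' L) ∪ (UnL t' L \ B) := by
        by_cases h : m ∈ B
        · exact Or.inl ⟨h, fun h' => hcon (iff_of_true h h')⟩
        · refine Or.inr ⟨?_, h⟩
          by_contra h'
          exact hcon (iff_of_false h h')
      have := hb this
      omega
    have hagree : ∀ k, j₀ ≤ k → ∀ m, Mk k ≤ m → (m ∈ B ↔ ∃ l ∈ L, m ∈ t' l) := by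
      intro k hk m hm
      exact hj₀ m (hk.trans ((hMmono.id_le k).trans hm))
    have hloc : ∀ k, j₀ ≤ k → ∀ m, Mk k ≤ m → m < Mk (k+1) → (m ∈ B ↔ k ∈ L ∧ m ∈ t' k) := by
      intro k hk m hm1 hm2
      rw [hagree k hk m hm1]
      constructor
      · rintro ⟨l, hl, hml⟩
        have h3 : l = k := by
          rcases lt_trichotomy l k with h | h | h
          · have := hhigh l m hml
            have := hMmono.monotone (show l+1 ≤ k from h)
            omega
          · exact h
          · have := hlow l m hml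
            have := hMmono.monotone (show k+1 ≤ l from h)
            omega
        subst h3
        exact ⟨hl, hml⟩
      · rintro ⟨h3, h4⟩
        exact ⟨k, h3, h4⟩
    let S : ℕ → Finset ℕ := fun k => (Finset.range (Mk k)).filter (· ∈ B)
    have hSpow : ∀ k l, k ≤ l → S k ∈ (Finset.range (Mk l)).powerset := by
      intro k l hkl
      rw [Finset.mem_powerset]
      intro a ha
      have h3 := Finset.mem_range.1 (Finset.mem_filter.1 ha).1
      exact Finset.mem_range.2 (lt_of_lt_of_le h3 (hMmono.monotone hkl))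
    have hSin : ∀ k, j₀ ≤ k → k ∈ L → S (k+1) = S k ∪ t' k := by
      intro k hk hkL
      ext m
      simp only [S, Finset.mem_filter, Finset.mem_range, Finset.mem_union]
      constructor
      · rintro ⟨h3, h4⟩
        rcases lt_or_ge m (Mk k) with h | h
        · exact Or.inl ⟨h, h4⟩
        · exact Or.inr ((hloc k hk m h h3).1 h4).2
      · rintro (⟨h3, h4⟩ | h3)
        · exact ⟨h3.trans (hMmono (Nat.lt_succ_self k)), h4⟩
        · exact ⟨hhigh k m h3, (hloc k hk m (hlow k m h3) (hhigh k m h3)).2 ⟨hkL, h3⟩⟩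
    have hSout : ∀ k, j₀ ≤ k → k ∉ L → S (k+1) = S k := by
      intro k hk hkL
      ext m
      simp only [S, Finset.mem_filter, Finset.mem_range]
      constructor
      · rintro ⟨h3, h4⟩
        rcases lt_or_ge m (Mk k) with h | h
        · exact ⟨h, h4⟩
        · exact absurd ((hloc k hk m h h3).1 h4).1 hkL
      · rintro ⟨h3, h4⟩
        exact ⟨h3.trans (hMmono (Nat.lt_succ_self k)), h4⟩
    have hstep3 : ∀ k, (Win p (U (ν (t' k))) (S k) ↔ c (S k)) ∧ (c (S k ∪ t' k) ↔ e (S k)) ∧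
        (e (S k ∪ t' k) ↔ e (S k)) := fun k => hf3 (Mk k) (Nk k) (S k) (hSpow k k le_rfl)
    have hE : ∀ k, j₀ ≤ k → (e (S k) ↔ e (S j₀)) := by
      intro k hk
      induction k, hk using Nat.le_induction with
      | base => exact Iff.rfl
      | succ k hk ih =>
        by_cases hkL : k ∈ L
        · rw [hSin k hk hkL, (hstep3 k).2.2, ih]
        · rw [hSout k hk hkL, ih]
    obtain ⟨l₀, hl₀, hl₀j⟩ := hL.exists_gt j₀
    have hC : ∀ k, l₀ + 1 ≤ k → (c (S k) ↔ e (S j₀)) := by
      intro k hk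
      induction k, hk using Nat.le_induction with
      | base => rw [hSin l₀ hl₀j.le hl₀, (hstep3 l₀).2.1, hE l₀ hl₀j.le]
      | succ k hk ih =>
        have hk' : j₀ ≤ k := by omega
        by_cases hkL : k ∈ L
        · rw [hSin k hk' hkL, (hstep3 k).2.1, hE k hk']
        · rw [hSout k hk' hkL, ih]
    have hIn : ∀ k, j₀ ≤ k → k ∈ L → B ∈ U (ν (t' k)) := by
      intro k hk hkL
      refine h1 (t' k) (hFU k) B ?_
      rintro i ⟨a, ha, hai⟩ ⟨b, hb, hib⟩
      rw [hloc k hk i ((hlow k a ha).trans hai) (lt_of_le_of_lt hib (hhigh k b hb))]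
      exact ⟨fun h => h.2, fun h => ⟨hkL, h⟩⟩
    have hOut : ∀ k, j₀ ≤ k → k ∉ L → (B ∈ U (ν (t' k)) ↔ Win p (U (ν (t' k))) (S k)) := by
      intro k hk hkL
      have hLinf : ({l | l ∈ L ∧ k < l} : Set ℕ).Infinite := by
        refine Set.infinite_of_forall_exists_gt fun a => ?_
        obtain ⟨l, hl, hal⟩ := hL.exists_gt (max a k)
        exact ⟨l, ⟨hl, by omega⟩, by omega⟩
      let g : ℕ → ℕ := Nat.nth (fun l => l ∈ L ∧ k < l)
      have hg : StrictMono g := Nat.nth_strictMono hLinf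
      have hgmem : ∀ i, g i ∈ L ∧ k < g i := fun i => Nat.nth_mem_of_infinite hLinf i
      have hgsurj : ∀ l, l ∈ L → k < l → ∃ i, g i = l := by
        intro l hl hkl
        have : l ∈ range g := by
          rw [Nat.range_nth_of_infinite hLinf]
          exact ⟨hl, hkl⟩
        exact this
      have hres := hD2 (ν (t' k)) (S k) (fun i => t' (g i)) (hblock.subseq hg) ?_ ?_
      · have hBeq : ((S k : Set ℕ) ∪ Un (fun i => t' (g i))) = B := by
          ext m
          constructor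
          · rintro (h | ⟨i, hi⟩)
            · exact (Finset.mem_filter.1 (Finset.mem_coe.1 h)).2
            · have h3 : k ≤ g i := (hgmem i).2.le
              refine (hagree k hk m ?_).2 ⟨g i, (hgmem i).1, hi⟩
              exact (hMmono.monotone h3).trans (hlow _ m hi)
          · intro h
            rcases lt_or_ge m (Mk k) with h3 | h3
            · exact Or.inl (Finset.mem_coe.2 (Finset.mem_filter.2 ⟨Finset.mem_range.2 h3, h⟩))
            · obtain ⟨l, hl, hml⟩ := (hagree k hk m h3).1 h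
              have h4 : k < l := by
                rcases lt_trichotomy l k with h | h | h
                · have := hhigh l m hml
                  have := hMmono.monotone (show l+1 ≤ k from h)
                  omega
                · exact absurd (h ▸ hl) hkL
                · exact h
              obtain ⟨i, rfl⟩ := hgsurj l hl h4
              exact Or.inr ⟨i, hml⟩
        rw [hBeq] at hres
        exact hres
      · intro a ha b hb
        have h3 := Finset.mem_range.1 (Finset.mem_filter.1 ha).1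
        have h4 := hlow _ b hb
        have h5 := hMmono.monotone (hgmem 0).2.le
        omega
      · intro i
        refine hf5 (Mk (g i)) (Nk (g i)) _ (hNmem k (g i) (hgmem i).2) _
          (hSpow k (g i) (hgmem i).2.le) _ ?_
        rw [Finset.mem_powerset]
        intro a ha
        rcases Finset.mem_union.1 ha with ha | ha
        · exact Finset.mem_powerset.1 (hSpow k (g i) (hgmem i).2.le) ha
        · obtain ⟨j, hj, haj⟩ := Finset.mem_biUnion.1 ha
          rw [Finset.mem_range] at hj ⊢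
          have h3 := hhigh (g j) a haj
          have h4 : Mk (g j + 1) ≤ Mk (g i) := hMmono.monotone (hg hj)
          omega
    have hall : ∀ k, l₀ + 1 ≤ k → k ∉ L → (B ∈ U (ν (t' k)) ↔ e (S j₀)) := by
      intro k hk hkL
      rw [hOut k (by omega) hkL, (hstep3 k).1, hC k hk]
    by_cases hcase : e (S j₀)
    · left
      filter_upwards [eventually_ge_atTop (l₀ + 1)] with k hk
      by_cases hkL : k ∈ L
      · exact hIn k (by omega) hkL
      · exact (hall k hk hkL).2 hcase
    · right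
      filter_upwards [eventually_ge_atTop (l₀ + 1)] with k hk
      by_cases hkL : k ∈ L
      · exact iff_of_true (hIn k (by omega) hkL) hkL
      · exact iff_of_false (fun h => hcase ((hall k hk hkL).1 h)) hkL

/-- The one-step lemma. -/
lemma one_step {τ : ℕ → Finset ℕ} (hτ : Block τ) (x : ℕ → Set ℕ) (U : ℕ → Set (Set ℕ))
    (hU : ∀ n, OpenFam (U n))
    (hP : ∀ F : Set (Set ℕ), F.Finite → (∀ A ∈ F, (∃ i, A = x i) ∨ AE A (Un τ)) →
      {n | F ⊆ U n}.Infinite) :
    ∃ (t' : ℕ → Finset ℕ) (n : ℕ → ℕ), Block t' ∧ (∀ k, t' k ∈ FU τ) ∧ StrictMono n ∧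
      (∀ i, ∀ᶠ k in atTop, x i ∈ U (n k)) ∧
      ∀ L : Set ℕ, L.Infinite → ∀ B : Set ℕ, AE B (UnL t' L) →
        (∀ᶠ k in atTop, B ∈ U (n k)) ∨ (∀ᶠ k in atTop, (B ∈ U (n k) ↔ k ∈ L)) := by
  obtain ⟨t, ν, ht, ht1, ht2, ht3⟩ := prefusion hτ x U hU hP
  obtain ⟨t', n, h1, h2, h3, h4, h5⟩ := fusion ht ν x U hU ht2 ht3
  exact ⟨t', n, h1, refines_trans h2 ht1, h3, h4, h5⟩

end Pool.Agent.Helper55
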