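import Pool.Agent.Helper55.Blocks

/-!
An open Ramsey property relative to an ultrafilter on finite sets of naturals.
-/

namespace Pool.Agent.Helper55

open Set Filter

/-- Families of sets of naturals which are open in the Cantor topology. -/
def OpenFam (U : Set (Set ℕ)) : Prop :=
  ∀ A ∈ U, ∃ m : ℕ, ∀ B : Set ℕ, (∀ i < m, i ∈ B ↔ i ∈ A) → B ∈ U

/-- The least family of finite sets containing the sets all of whose end-extensions are in `O`,
and closed under the ultrafilter quantifier. -/
inductive Win (p : Ultrafilter (Finset ℕ)) (O : Set (Set ℕ)) : Finset ℕ → Prop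
  | base (S : Finset ℕ)
      (h : ∀ B : Set ℕ, (∀ i, (∃ b ∈ S, i ≤ b) → (i ∈ B ↔ i ∈ S)) → B ∈ O) : Win p O S
  | step (S : Finset ℕ) (A : Set (Finset ℕ)) (hA : A ∈ p) (h : ∀ s ∈ A, Win p O (S ∪ s)) :
      Win p O S

/-- The sequence `s` follows the strategy `D` from the position `S`. -/
def Follow (D : Finset ℕ → Set (Finset ℕ)) (S : Finset ℕ) (s : ℕ → Finset ℕ) : Prop :=
  ∀ i, s i ∈ D (S ∪ (Finset.range i).biUnion s)

lemma Block.shift {s : ℕ → Finset ℕ} (hs : Block s) : Block (fun i => s (i+1)) :=
  ⟨fun _ => hs.1 _, fun k i hi j hj => hs.2 (k+1) i hi j hj⟩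

lemma win_strategy {p : Ultrafilter (Finset ℕ)} {O : Set (Set ℕ)} {S : Finset ℕ}
    (h : Win p O S) :
    ∃ D : Finset ℕ → Set (Finset ℕ), (∀ S', D S' ∈ p) ∧ ∀ s, Block s →
      (∀ a ∈ S, ∀ b ∈ s 0, a < b) → Follow D S s → ((S : Set ℕ) ∪ Un s) ∈ O := by
  classical
  induction h with
  | base S h =>
    refine ⟨fun _ => univ, fun _ => univ_mem, fun s hs hb _ => h _ ?_⟩
    rintro i ⟨b, hb', hib⟩
    constructor
    · rintro (hi | ⟨k, hk⟩)
      · exact hi
      · exfalso
        rcases Nat.eq_zero_or_pos k with rfl | hk0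
        · exact absurd (hb b hb' i hk) (by omega)
        · obtain ⟨m, hm⟩ := hs.1 0
          have h1 := hb b hb' m hm
          have h2 := hs.lt hk0 hm hk
          omega
    · exact fun hi => Or.inl hi
  | step S A hA h ih =>
    choose! D hD1 hD2 using ih
    refine ⟨fun S' => A ∩ ⋂ s ∈ (S'.powerset.filter (· ∈ A)), D s S', ?_, ?_⟩
    · intro S'
      refine inter_mem hA ?_
      refine (Filter.biInter_finset_mem _).2 fun s hs => ?_
      exact hD1 s (Finset.mem_filter.1 hs).2 S'
    · intro s hs hb hF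
      have h0 : s 0 ∈ A := by
        have := (hF 0).1
        exact this
      have h1 := hD2 (s 0) h0 (fun i => s (i+1)) hs.shift ?_ ?_
      · have h2 : ((S ∪ s 0 : Finset ℕ) : Set ℕ) ∪ Un (fun i => s (i+1)) = (S : Set ℕ) ∪ Un s := by
          ext n
          simp only [Finset.coe_union, mem_union, Finset.mem_coe, Un, mem_ofPred_eq]
          constructor
          · rintro ((hn | hn) | ⟨k, hk⟩)
            · exact Or.inl hn
            · exact Or.inr ⟨0, hn⟩
            · exact Or.inr ⟨k+1, hk⟩
          · rintro (hn | ⟨k, hk⟩)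
            · exact Or.inl (Or.inl hn)
            · cases k with
              | zero => exact Or.inl (Or.inr hk)
              | succ k => exact Or.inr ⟨k, hk⟩
        rwa [h2] at h1
      · intro a ha b hb'
        rcases Finset.mem_union.1 ha with ha | ha
        · obtain ⟨m, hm⟩ := hs.1 0
          exact (hb a ha m hm).trans (hs.2 0 m hm b hb')
        · exact hs.2 0 a ha b hb'
      · intro i
        have h3 := (hF (i+1)).2
        have h4 : S ∪ (Finset.range (i+1)).biUnion s =
            (S ∪ s 0) ∪ (Finset.range i).biUnion (fun i => s (i+1)) := by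
          ext n
          simp only [Finset.mem_union, Finset.mem_biUnion, Finset.mem_range]
          constructor
          · rintro (hn | ⟨k, hk, hn⟩)
            · exact Or.inl (Or.inl hn)
            · cases k with
              | zero => exact Or.inl (Or.inr hn)
              | succ k => exact Or.inr ⟨k, by omega, hn⟩
          · rintro ((hn | hn) | ⟨k, hk, hn⟩)
            · exact Or.inl hn
            · exact Or.inr ⟨0, by omega, hn⟩
            · exact Or.inr ⟨k+1, by omega, hn⟩
        have h5 : s 0 ∈ ((S ∪ (Finset.range (i+1)).biUnion s).powerset.filter (· ∈ A)) := by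
          rw [Finset.mem_filter, Finset.mem_powerset]
          refine ⟨fun n hn => Finset.mem_union_right _ (Finset.mem_biUnion.2
            ⟨0, Finset.mem_range.2 (Nat.succ_pos _), hn⟩), h0⟩
        have h6 := mem_iInter₂.1 h3 (s 0) h5
        rw [h4] at h6
        exact h6

lemma lose_strategy {p : Ultrafilter (Finset ℕ)} {O : Set (Set ℕ)} (hO : OpenFam O)
    {S : Finset ℕ} (h : ¬ Win p O S) :
    ∃ D : Finset ℕ → Set (Finset ℕ), (∀ S', D S' ∈ p) ∧ ∀ s, Block s →
      (∀ a ∈ S, ∀ b ∈ s 0, a < b) → Follow D S s → ((S : Set ℕ) ∪ Un s) ∉ O := by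
  classical
  refine ⟨fun S' => if Win p O S' then univ else {s | ¬ Win p O (S' ∪ s)}, ?_, ?_⟩
  · intro S'
    show (if Win p O S' then univ else {s | ¬ Win p O (S' ∪ s)}) ∈ p
    split_ifs with h1
    · exact univ_mem
    · have h2 : {s | Win p O (S' ∪ s)} ∉ p := fun h3 => h1 (Win.step S' _ h3 fun s hs => hs)
      exact Ultrafilter.compl_mem_iff_notMem.2 h2
  · intro s hs hb hF hmem
    have hnot : ∀ i, ¬ Win p O (S ∪ (Finset.range i).biUnion s) := by
      intro i
      induction i with
      | zero => simpa using h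
      | succ i ih =>
        have h1 := hF i
        simp only [if_neg ih] at h1
        have h2 : S ∪ (Finset.range (i+1)).biUnion s =
            (S ∪ (Finset.range i).biUnion s) ∪ s i := by
          rw [Finset.range_add_one, Finset.biUnion_insert, Finset.union_assoc,
            Finset.union_comm (s i)]
        rw [h2]
        exact h1
    obtain ⟨m, hm⟩ := hO _ hmem
    refine hnot (m+1) (Win.base _ fun B hB => hm B fun i hi => ?_)
    obtain ⟨b, hb'⟩ := hs.1 m
    have h1 : m ≤ b := hs.le_of_mem hb'
    have h2 : b ∈ S ∪ (Finset.range (m+1)).biUnion s :=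
      Finset.mem_union_right _ (Finset.mem_biUnion.2 ⟨m, Finset.mem_range.2 (Nat.lt_succ_self m), hb'⟩)
    rw [hB i ⟨b, h2, by omega⟩, Finset.mem_union, Finset.mem_biUnion]
    constructor
    · rintro (hi' | ⟨k, -, hk⟩)
      · exact Or.inl hi'
      · exact Or.inr ⟨k, hk⟩
    · rintro (hi' | ⟨k, hk⟩)
      · exact Or.inl hi'
      · refine Or.inr ⟨k, ?_, hk⟩
        have := hs.le_of_mem hk
        rw [Finset.mem_range]
        omega

/-- Every open family is decided by the ultrafilter, uniformly along a strategy. -/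
lemma exists_strategy (p : Ultrafilter (Finset ℕ)) {O : Set (Set ℕ)} (hO : OpenFam O)
    (S : Finset ℕ) :
    ∃ D : Finset ℕ → Set (Finset ℕ), (∀ S', D S' ∈ p) ∧ ∀ s, Block s →
      (∀ a ∈ S, ∀ b ∈ s 0, a < b) → Follow D S s → (((S : Set ℕ) ∪ Un s) ∈ O ↔ Win p O S) := by
  by_cases h : Win p O S
  · obtain ⟨D, h1, h2⟩ := win_strategy h
    exact ⟨D, h1, fun s hs hb hF => iff_of_true (h2 s hs hb hF) h⟩
  · obtain ⟨D, h1, h2⟩ := lose_strategy hO h
    exact ⟨D, h1, fun s hs hb hF => iff_of_false (h2 s hs hb hF) h⟩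

end Pool.Agent.Helper55
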