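import Pool.Agent.Helper55.OpenRamsey

/-!
Choosing blocks and members of an omega-cover such that passing through a block forces
membership in the corresponding member of the cover.
-/

namespace Pool.Agent.Helper55

open Set Filter

/-- Between its least and largest elements, `B` agrees with `s`. -/
def Through (B : Set ℕ) (s : Finset ℕ) : Prop :=
  ∀ i, (∃ a ∈ s, a ≤ i) → (∃ b ∈ s, i ≤ b) → (i ∈ B ↔ i ∈ s)

lemma prefusion_step {τ : ℕ → Finset ℕ} (hτ : Block τ) (x : ℕ → Set ℕ) (U : ℕ → Set (Set ℕ))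
    (hU : ∀ n, OpenFam (U n))
    (hP : ∀ F : Set (Set ℕ), F.Finite → (∀ A ∈ F, (∃ i, A = x i) ∨ AE A (Un τ)) →
      {n | F ⊆ U n}.Infinite) (k M : ℕ) :
    ∃ s : Finset ℕ, s.Nonempty ∧ (∀ a ∈ s, M ≤ a) ∧ s ∈ FU τ ∧
      ∃ n, k ≤ n ∧ (∀ i < k, x i ∈ U n) ∧ ∀ B : Set ℕ, Through B s → B ∈ U n := by
  classical
  let m := (τ M).min' (hτ.1 M)
  have hm : m ∈ τ M := Finset.min'_mem _ _
  have hmle : ∀ a ∈ τ M, m ≤ a := fun a ha => Finset.min'_le _ _ ha
  let A : Finset ℕ → Set ℕ := fun S => (S : Set ℕ) ∪ {n | n ∈ Un τ ∧ m ≤ n}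
  let F : Set (Set ℕ) := (x '' {i | i < k}) ∪ (A '' ((Finset.range m).powerset : Set (Finset ℕ)))
  have hFfin : F.Finite := ((Set.finite_lt_nat k).image x).union ((Finset.finite_toSet _).image A)
  have hF := hP F hFfin (by
    rintro B (⟨i, -, rfl⟩ | ⟨S, hS, rfl⟩)
    · exact Or.inl ⟨i, rfl⟩
    · right
      constructor
      · refine S.finite_toSet.subset ?_
        rintro n ⟨hn | hn, hn2⟩
        · exact hn
        · exact absurd hn.1 hn2
      · refine (Set.finite_lt_nat m).subset ?_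
        rintro n ⟨hn1, hn2⟩
        by_contra hcon
        exact hn2 (Or.inr ⟨hn1, not_lt.1 hcon⟩))
  obtain ⟨n, hn, hkn⟩ := hF.exists_gt k
  have hn : F ⊆ U n := hn
  have h1 : ∀ S ∈ (Finset.range m).powerset, ∃ r : ℕ, ∀ B : Set ℕ,
      (∀ i < r, i ∈ B ↔ i ∈ A S) → B ∈ U n := by
    intro S hS
    exact hU n (A S) (hn (Or.inr ⟨S, hS, rfl⟩))
  choose! r hr using h1
  let R := (Finset.range m).powerset.sup r
  have hrR : ∀ S ∈ (Finset.range m).powerset, r S ≤ R := fun S hS => Finset.le_sup hS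
  let j := max M R
  refine ⟨(Finset.Icc M j).biUnion τ, ?_, ?_, ?_, n, hkn.le, ?_, ?_⟩
  · exact ⟨m, Finset.mem_biUnion.2 ⟨M, Finset.mem_Icc.2 ⟨le_rfl, le_max_left _ _⟩, hm⟩⟩
  · intro a ha
    obtain ⟨l, hl, hal⟩ := Finset.mem_biUnion.1 ha
    exact (Finset.mem_Icc.1 hl).1.trans (hτ.le_of_mem hal)
  · exact ⟨Finset.Icc M j, ⟨M, Finset.mem_Icc.2 ⟨le_rfl, le_max_left _ _⟩⟩, rfl⟩
  · intro i hi
    exact hn (Or.inl ⟨i, hi, rfl⟩)
  · intro B hB
    let S := (Finset.range m).filter (· ∈ B)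
    have hS : S ∈ (Finset.range m).powerset :=
      Finset.mem_powerset.2 (Finset.filter_subset _ _)
    refine hr S hS B fun i hi => ?_
    have hiR : i < R := lt_of_lt_of_le hi (hrR S hS)
    rcases lt_or_ge i m with him | him
    · constructor
      · intro h
        exact Or.inl (Finset.mem_coe.2 (Finset.mem_filter.2 ⟨Finset.mem_range.2 him, h⟩))
      · rintro (h | h)
        · exact (Finset.mem_filter.1 (Finset.mem_coe.1 h)).2
        · exact absurd h.2 (not_le.2 him)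
    · obtain ⟨b, hb⟩ := hτ.1 j
      have hjb : j ≤ b := hτ.le_of_mem hb
      have hib : i ≤ b := by
        have : R ≤ j := le_max_right _ _
        omega
      have hms : m ∈ (Finset.Icc M j).biUnion τ :=
        Finset.mem_biUnion.2 ⟨M, Finset.mem_Icc.2 ⟨le_rfl, le_max_left _ _⟩, hm⟩
      have hbs : b ∈ (Finset.Icc M j).biUnion τ :=
        Finset.mem_biUnion.2 ⟨j, Finset.mem_Icc.2 ⟨le_max_left _ _, le_rfl⟩, hb⟩
      rw [hB i ⟨m, hms, him⟩ ⟨b, hbs, hib⟩, Finset.mem_biUnion]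
      constructor
      · rintro ⟨l, -, hl⟩
        exact Or.inr ⟨⟨l, hl⟩, him⟩
      · rintro (h | ⟨⟨l, hl⟩, -⟩)
        · have := (Finset.mem_filter.1 (Finset.mem_coe.1 h)).1
          rw [Finset.mem_range] at this
          omega
        · refine ⟨l, Finset.mem_Icc.2 ⟨?_, ?_⟩, hl⟩
          · by_contra hcon
            have := hτ.lt (not_le.1 hcon) hl hm
            omega
          · by_contra hcon
            have := hτ.lt (not_le.1 hcon) hb hl
            omega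

lemma prefusion {τ : ℕ → Finset ℕ} (hτ : Block τ) (x : ℕ → Set ℕ) (U : ℕ → Set (Set ℕ))
    (hU : ∀ n, OpenFam (U n))
    (hP : ∀ F : Set (Set ℕ), F.Finite → (∀ A ∈ F, (∃ i, A = x i) ∨ AE A (Un τ)) →
      {n | F ⊆ U n}.Infinite) :
    ∃ (t : ℕ → Finset ℕ) (ν : Finset ℕ → ℕ), Block t ∧ (∀ k, t k ∈ FU τ) ∧
      (∀ s ∈ FU t, ∀ B : Set ℕ, Through B s → B ∈ U (ν s)) ∧
      (∀ j, ∃ M, ∀ s ∈ FU t, (∀ a ∈ s, M ≤ a) → (∀ i < j, x i ∈ U (ν s)) ∧ j ≤ ν s) := by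
  obtain ⟨t, ht, hPt⟩ := exists_block (P := fun k s => s ∈ FU τ ∧
      ∃ n, k ≤ n ∧ (∀ i < k, x i ∈ U n) ∧ ∀ B : Set ℕ, Through B s → B ∈ U n)
      (fun k M => prefusion_step hτ x U hU hP k M)
  choose ht1 n hn1 hn2 hn3 using hPt
  have hq : ∀ s ∈ FU t, ∃ q, t q ⊆ s ∧ ∀ i ∈ s, ∀ a ∈ t q, a ≤ i → i ∈ t q := by
    rintro _ ⟨F, hF, rfl⟩
    refine ⟨F.max' hF, ?_, ?_⟩
    · exact Finset.subset_biUnion_of_mem t (Finset.max'_mem _ _)
    · intro i hi a ha hai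
      obtain ⟨l, hl, hil⟩ := Finset.mem_biUnion.1 hi
      have hlq : l ≤ F.max' hF := Finset.le_max' _ _ hl
      rcases lt_or_eq_of_le hlq with h | h
      · have := ht.lt h hil ha
        omega
      · rw [← h]; exact hil
  choose! q hq1 hq2 using hq
  refine ⟨t, fun s => n (q s), ht, ht1, ?_, ?_⟩
  · intro s hs B hB
    refine hn3 (q s) B ?_
    rintro i ⟨a, ha, hai⟩ ⟨b, hb, hib⟩
    rw [hB i ⟨a, hq1 s hs ha, hai⟩ ⟨b, hq1 s hs hb, hib⟩]
    exact ⟨fun hi => hq2 s hs i hi a ha hai, fun hi => hq1 s hs hi⟩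
  · intro j
    obtain ⟨c, hc⟩ := ht.1 j
    refine ⟨(t j).sup id + 1, fun s hs hM => ?_⟩
    have hqj : j ≤ q s := by
      by_contra hcon
      rw [not_le] at hcon
      obtain ⟨a, ha⟩ := ht.1 (q s)
      have h1 := hM a (hq1 s hs ha)
      have h2 := ht.lt hcon ha hc
      have h3 : c ≤ (t j).sup id := Finset.le_sup (f := id) hc
      omega
    exact ⟨fun i hi => hn2 _ i (lt_of_lt_of_le hi hqj), hqj.trans (hn1 _)⟩

end Pool.Agent.Helper55
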