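import Pool.Agent.Helper55.Covers

namespace Pool.Agent.Helper55

open Set

/-- Splitting a sequence of sets along consecutive intervals. -/
lemma exists_split_of_intervals {X : Type*} (e : ℕ → Set X) (b : ℕ → ℕ) (hb : StrictMono b)
    (I : Set ℕ)
    (h : ∀ y, {i | i ∈ I ∧ ∃ n, b i ≤ n ∧ n < b (i+1) ∧ y ∈ e n}.Infinite ∧
      {i | i ∉ I ∧ ∃ n, b i ≤ n ∧ n < b (i+1) ∧ y ∈ e n}.Infinite) :
    ∃ A : Set ℕ, ∀ y, {n | n ∈ A ∧ y ∈ e n}.Infinite ∧ {n | n ∉ A ∧ y ∈ e n}.Infinite := by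
  refine ⟨{n | ∃ i ∈ I, b i ≤ n ∧ n < b (i+1)}, fun y => ⟨?_, ?_⟩⟩
  · refine Set.infinite_of_forall_exists_gt fun a => ?_
    obtain ⟨i, ⟨hiI, n, h1, h2, h3⟩, hai⟩ := (h y).1.exists_gt a
    exact ⟨n, ⟨⟨i, hiI, h1, h2⟩, h3⟩, lt_of_lt_of_le hai ((hb.id_le i).trans h1)⟩
  · refine Set.infinite_of_forall_exists_gt fun a => ?_
    obtain ⟨i, ⟨hiI, n, h1, h2, h3⟩, hai⟩ := (h y).2.exists_gt a
    refine ⟨n, ⟨?_, h3⟩, lt_of_lt_of_le hai ((hb.id_le i).trans h1)⟩
    rintro ⟨j, hj, h4, h5⟩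
    have h6 : i < j + 1 := hb.lt_iff_lt.1 (lt_of_le_of_lt h1 h5)
    have h7 : j < i + 1 := hb.lt_iff_lt.1 (lt_of_le_of_lt h4 h2)
    have : i = j := by omega
    exact hiI (this ▸ hj)

/-- A large open cover of a second countable space contains a countable large subcover. -/
lemma exists_countable_lambda {X : Type*} [TopologicalSpace X] [SecondCountableTopology X]
    {U : Set (Set X)} (hU : U ∈ LambdaCovers X) :
    ∃ U' ⊆ U, U'.Countable ∧ ∀ x : X, {u ∈ U' | x ∈ u}.Infinite := by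
  obtain ⟨⟨hopen, hcov, huniv⟩, hlarge⟩ := hU
  have key : ∀ r : ℕ, ∃ T : Set (Set (Set X)), T.Countable ∧ (∀ t ∈ T, t ⊆ U ∧ t.Finite ∧ t.ncard = r) ∧
      ∀ x : X, ∃ t ∈ T, x ∈ ⋂₀ t := by
    intro r
    let S : Set (Set (Set X)) := {t | t ⊆ U ∧ t.Finite ∧ t.ncard = r}
    obtain ⟨T, hTS, hTc, hTU⟩ := TopologicalSpace.isOpen_biUnion_countable S (fun t => ⋂₀ t)
      (fun t ht => ht.2.1.isOpen_sInter fun u hu => hopen u (ht.1 hu))
    refine ⟨T, hTc, fun t ht => hTS ht, fun x => ?_⟩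
    have hx : x ∈ ⋃ t ∈ S, ⋂₀ t := by
      obtain ⟨t, ht1, ht2⟩ := (hlarge x).exists_subset_ncard_eq r
      refine mem_iUnion₂.2 ⟨t, ⟨fun u hu => (ht1 hu).1, ht2.1, ht2.2⟩, ?_⟩
      exact fun u hu => (ht1 hu).2
    rw [← hTU] at hx
    obtain ⟨t, ht, hxt⟩ := mem_iUnion₂.1 hx
    exact ⟨t, ht, hxt⟩
  choose T hTc hTS hTx using key
  refine ⟨⋃ r, ⋃₀ (T r), ?_, ?_, ?_⟩
  · refine iUnion_subset fun r => sUnion_subset fun t ht => (hTS r t ht).1
  · refine countable_iUnion fun r => ?_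
    exact (hTc r).sUnion fun t ht => (hTS r t ht).2.1.countable
  · intro x hfin
    obtain ⟨t, ht, hxt⟩ := hTx ({u ∈ ⋃ r, ⋃₀ (T r) | x ∈ u}.ncard + 1) x
    have hsub : t ⊆ {u ∈ ⋃ r, ⋃₀ (T r) | x ∈ u} := fun u hu =>
      ⟨mem_iUnion.2 ⟨_, mem_sUnion.2 ⟨t, ht, hu⟩⟩, hxt u hu⟩
    have := ncard_le_ncard hsub hfin
    rw [(hTS _ t ht).2.2] at this
    omega

/-- In a linearly (quasi-)ordered family of sets one of two complementary sets of indices is
met infinitely often by every member. -/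
lemma exists_side {X : Type*} (D : X → Set ℕ) (hinf : ∀ y, (D y).Infinite)
    (hlin : ∀ y z, (D y \ D z).Finite ∨ (D z \ D y).Finite) (P : Set ℕ) :
    (∀ y, (D y ∩ P).Infinite) ∨ (∀ y, (D y \ P).Infinite) := by
  by_contra hcon
  push Not at hcon
  obtain ⟨⟨y, hy⟩, ⟨z, hz⟩⟩ := hcon
  rcases hlin y z with h | h
  · refine hinf y ((hy.union (h.union hz)).subset ?_)
    intro n hn
    by_cases h1 : n ∈ P
    · exact Or.inl ⟨hn, h1⟩
    · by_cases h2 : n ∈ D z
      · exact Or.inr (Or.inr ⟨h2, h1⟩)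
      · exact Or.inr (Or.inl ⟨hn, h2⟩)
  · refine hinf z ((hz.union (h.union hy)).subset ?_)
    intro n hn
    by_cases h1 : n ∈ P
    · by_cases h2 : n ∈ D y
      · exact Or.inr (Or.inr ⟨h2, h1⟩)
      · exact Or.inr (Or.inl ⟨hn, h2⟩)
    · exact Or.inl ⟨hn, h1⟩

/-- Finite subfamilies of a linear family of infinite sets have infinite intersection. -/
lemma infinite_inter_of_linear {X ι : Type*} (D : X → Set ι) (hinf : ∀ y, (D y).Infinite)
    (hlin : ∀ y z, (D y \ D z).Finite ∨ (D z \ D y).Finite) (F : Set X) (hF : F.Finite)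
    (hne : F.Nonempty) : {i | ∀ y ∈ F, i ∈ D y}.Infinite := by
  obtain ⟨z, hz, hmin⟩ : ∃ z ∈ F, ∀ y ∈ F, (D z \ D y).Finite := by
    induction F, hF using Set.Finite.induction_on with
    | empty => exact absurd hne (by simp)
    | insert ha hs ih =>
      rename_i a s
      rcases s.eq_empty_or_nonempty with rfl | hs'
      · exact ⟨a, by simp, by simp⟩
      · obtain ⟨z, hz, hmin⟩ := ih hs'
        rcases hlin a z with h | h
        · refine ⟨a, by simp, ?_⟩
          intro y hy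
          rcases hy with rfl | hy
          · simp
          · refine (h.union (hmin y hy)).subset ?_
            intro i hi
            by_cases h1 : i ∈ D z
            · exact Or.inr ⟨h1, hi.2⟩
            · exact Or.inl ⟨hi.1, h1⟩
        · refine ⟨z, Or.inr hz, ?_⟩
          intro y hy
          rcases hy with rfl | hy
          · exact h
          · exact hmin y hy
  have hfin : (⋃ y ∈ F, D z \ D y).Finite := hF.biUnion hmin
  refine ((hinf z).sdiff hfin).mono ?_
  intro i hi y hy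
  by_contra hcon
  exact hi.2 (mem_iUnion₂.2 ⟨y, hy, hi.1, hcon⟩)

/-- The selection step: from a tau-cover `V` and points `x m` we get an infinite subfamily `B`
which is still met infinitely often by every point, while each `x m` belongs to almost all
members of `B`. -/
lemma exists_subfamily {X : Type*} [TopologicalSpace X] {V : Set (Set X)}
    (hV : V ∈ TauCovers X) (x : ℕ → X) :
    ∃ B ⊆ V, (∀ y : X, {v ∈ B | y ∈ v}.Infinite) ∧ ∀ m, {v ∈ B | x m ∉ v}.Finite := by
  obtain ⟨-, hlarge, hlin⟩ := hV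
  by_cases hcase : ∃ z : X, ∀ m, {v ∈ V | z ∈ v ∧ x m ∉ v}.Finite
  · obtain ⟨z, hz⟩ := hcase
    refine ⟨{v ∈ V | z ∈ v}, fun v hv => hv.1, fun y => ?_, fun m => ?_⟩
    · rcases hlin y z with h | h
      · refine ((hlarge y).sdiff h).mono ?_
        intro v hv
        refine ⟨⟨hv.1.1, ?_⟩, hv.1.2⟩
        by_contra hcon
        exact hv.2 ⟨hv.1.1, hv.1.2, hcon⟩
      · refine ((hlarge z).sdiff h).mono ?_
        intro v hv
        refine ⟨hv.1, ?_⟩
        by_contra hcon
        exact hv.2 ⟨hv.1.1, hv.1.2, hcon⟩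
    · exact (hz m).subset fun v hv => ⟨hv.1.1, hv.1.2, hv.2⟩
  · push Not at hcase
    -- the sequence `x` is coinitial, so there is a pseudo-intersection
    have hco : ∀ z : X, ∃ m, {v ∈ V | x m ∈ v ∧ z ∉ v}.Finite := by
      intro z
      obtain ⟨m, hm⟩ := hcase z
      exact ⟨m, (hlin z (x m)).resolve_left hm⟩
    have hstep : ∀ (i : ℕ) (s : Finset (Set X)), ∃ v ∈ V, (∀ j ≤ i, x j ∈ v) ∧ v ∉ s := by
      intro i s
      have := infinite_inter_of_linear (fun y : X => {v ∈ V | y ∈ v}) hlarge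
        (fun y z => (hlin y z).imp (fun h => h.subset fun v hv => ⟨hv.1.1, hv.1.2,
            fun h' => hv.2 ⟨hv.1.1, h'⟩⟩) (fun h => h.subset fun v hv => ⟨hv.1.1, hv.1.2,
            fun h' => hv.2 ⟨hv.1.1, h'⟩⟩)) (x '' {j | j ≤ i}) ((Set.finite_le_nat i).image x)
        ⟨x 0, 0, Nat.zero_le _, rfl⟩
      obtain ⟨v, hv, hvs⟩ := this.exists_notMem_finset s
      refine ⟨v, (hv (x 0) ⟨0, Nat.zero_le _, rfl⟩).1, fun j hj => (hv (x j) ⟨j, hj, rfl⟩).2, hvs⟩
    choose g hgV hgx hgs using hstep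
    -- build the sequence recursively
    let seq : ℕ → Finset (Set X) := fun n => Nat.rec ∅ (fun i s => insert (g i s) s) n
    have hseq0 : seq 0 = ∅ := rfl
    have hseqs : ∀ i, seq (i+1) = insert (g i (seq i)) (seq i) := fun i => rfl
    have hmono : ∀ i j, i ≤ j → seq i ⊆ seq j := by
      intro i j hij
      induction hij with
      | refl => exact Finset.Subset.refl _
      | step h ih => exact ih.trans (by rw [hseqs]; exact Finset.subset_insert _ _)
    let v : ℕ → Set X := fun i => g i (seq i)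
    have hvinj : Function.Injective v := by
      have : ∀ i j, i < j → v i ≠ v j := by
        intro i j hij heq
        have h1 : v i ∈ seq (i+1) := by rw [hseqs]; exact Finset.mem_insert_self _ _
        have h2 := hmono _ _ (Nat.succ_le_of_lt hij) h1
        rw [heq] at h2
        exact hgs j (seq j) h2
      intro i j hij
      rcases lt_trichotomy i j with h | h | h
      · exact absurd hij (this i j h)
      · exact h
      · exact absurd hij.symm (this j i h)
    have hfinm : ∀ m, {v' ∈ range v | x m ∉ v'}.Finite := by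
      intro m
      refine ((Set.finite_lt_nat m).image v).subset ?_
      rintro _ ⟨⟨i, rfl⟩, hi⟩
      refine ⟨i, ?_, rfl⟩
      by_contra hcon
      exact hi (hgx i (seq i) m (not_lt.1 hcon))
    refine ⟨range v, ?_, ?_, hfinm⟩
    · rintro _ ⟨i, rfl⟩
      exact hgV _ _
    · intro y
      obtain ⟨m, hm⟩ := hco y
      have h1 : (range v).Infinite := infinite_range_of_injective hvinj
      refine (h1.sdiff ((hfinm m).union hm)).mono ?_
      rintro w ⟨hw, hw2⟩
      refine ⟨hw, ?_⟩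
      by_contra hcon
      by_cases h2 : x m ∈ w
      · refine hw2 (Or.inr ⟨?_, h2, hcon⟩)
        obtain ⟨i, rfl⟩ := hw
        exact hgV _ _
      · exact hw2 (Or.inl ⟨hw, h2⟩)

/-- An infinite set of naturals splits into two infinite parts. -/
lemma exists_split_infinite {S : Set ℕ} (hS : S.Infinite) :
    ∃ I ⊆ S, I.Infinite ∧ (S \ I).Infinite := by
  let f : ℕ → ℕ := Nat.nth (· ∈ S)
  have hf : StrictMono f := Nat.nth_strictMono hS
  have hfS : ∀ n, f n ∈ S := fun n => Nat.nth_mem_of_infinite hS n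
  refine ⟨range fun k => f (2*k), ?_, ?_, ?_⟩
  · rintro _ ⟨k, rfl⟩
    exact hfS _
  · refine infinite_range_of_injective ?_
    intro a b hab
    have := hf.injective hab
    omega
  · have h1 : (range fun k => f (2*k+1)).Infinite := by
      refine infinite_range_of_injective ?_
      intro a b hab
      have := hf.injective hab
      omega
    refine h1.mono ?_
    rintro _ ⟨k, rfl⟩
    refine ⟨hfS _, ?_⟩
    rintro ⟨l, hl⟩
    have := hf.injective hl
    omega

/-- Splitting the index set of a linear sequence of open sets. -/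
lemma exists_split_index {X : Type*} [TopologicalSpace X] [Nonempty X]
    (hS : Split (OmegaCovers X) (TauCovers X)) (G : ℕ → Set X) (hG : ∀ i, IsOpen (G i))
    (hinf : ∀ y, {i | y ∈ G i}.Infinite)
    (hlin : ∀ y z, ({i | y ∈ G i} \ {i | z ∈ G i}).Finite ∨
      ({i | z ∈ G i} \ {i | y ∈ G i}).Finite) :
    ∃ I : Set ℕ, ∀ y, {i | i ∈ I ∧ y ∈ G i}.Infinite ∧ {i | i ∉ I ∧ y ∈ G i}.Infinite := by
  by_cases hcase : {i | G i = univ}.Infinite
  · obtain ⟨I, hIS, hI1, hI2⟩ := exists_split_infinite hcase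
    refine ⟨I, fun y => ⟨hI1.mono ?_, hI2.mono ?_⟩⟩
    · intro i hi
      refine ⟨hi, ?_⟩
      have : G i = univ := hIS hi
      rw [this]; trivial
    · rintro i ⟨hi1, hi2⟩
      refine ⟨hi2, ?_⟩
      have : G i = univ := hi1
      rw [this]; trivial
  · rw [not_infinite] at hcase
    let 𝒢 : Set (Set X) := {g | ∃ i, g = G i ∧ g ≠ univ}
    have hfinG : ∀ F : Set X, F.Finite → ∃ u ∈ 𝒢, F ⊆ u := by
      intro F hF
      obtain ⟨x0⟩ := ‹Nonempty X›
      have h1 := infinite_inter_of_linear (fun y => {i | y ∈ G i}) hinf hlin (insert x0 F)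
        (hF.insert x0) ⟨x0, Or.inl rfl⟩
      obtain ⟨i, hi1, hi2⟩ := (h1.sdiff hcase).nonempty
      exact ⟨G i, ⟨i, rfl, hi2⟩, fun y hy => hi1 y (Or.inr hy)⟩
    have hOm : 𝒢 ∈ OmegaCovers X := by
      refine ⟨⟨?_, ?_, ?_⟩, hfinG⟩
      · rintro _ ⟨i, rfl, -⟩
        exact hG i
      · refine eq_univ_of_forall fun y => ?_
        obtain ⟨u, hu, hyu⟩ := hfinG {y} (finite_singleton y)
        exact ⟨u, hu, hyu rfl⟩
      · rintro ⟨i, -, h⟩
        exact h rfl
    obtain ⟨V, W, hVW, hdis, ⟨V', hV', hVV⟩, ⟨W', hW', hWW⟩⟩ := hS 𝒢 hOm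
    have aux : ∀ (Z : Set (Set X)) (hZ : Z ∈ TauCovers X) (hZG : Z ⊆ 𝒢) (y : X) (T : Set ℕ)
        (hT : ∀ i, G i ∈ Z → i ∈ T), {i | i ∈ T ∧ y ∈ G i}.Infinite := by
      intro Z hZ hZG y T hT hfin
      refine hZ.2.1 y ((hfin.image G).subset ?_)
      rintro u ⟨hu, hyu⟩
      obtain ⟨i, rfl, -⟩ := hZG hu
      exact ⟨i, ⟨hT i hu, hyu⟩, rfl⟩
    refine ⟨{i | G i ∈ V}, fun y => ⟨?_, ?_⟩⟩
    · exact aux V' hV' (fun v hv => hVW ▸ Or.inl (hVV hv)) y _ fun i hi => hVV hi
    · exact aux W' hW' (fun w hw => hVW ▸ Or.inr (hWW hw)) y {i | G i ∉ V}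
        fun i hi h => disjoint_left.1 hdis h (hWW hi)

/-- The main splitting statement for sequences of open sets. -/
theorem exists_split_sequence {X : Type*} [TopologicalSpace X] [T1Space X] [Nonempty X]
    (hS : Split (OmegaCovers X) (TauCovers X)) (e : ℕ → Set X) (he : ∀ n, IsOpen (e n))
    (hinf : ∀ y, {n | y ∈ e n}.Infinite) :
    ∃ A : Set ℕ, ∀ y, {n | n ∈ A ∧ y ∈ e n}.Infinite ∧ {n | n ∉ A ∧ y ∈ e n}.Infinite := by
  by_cases hcase : ∀ m : ℕ, ∃ F : Finset ℕ, (∀ n ∈ F, m ≤ n) ∧ (⋃ n ∈ F, e n) = univ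
  · choose F hF1 hF2 using hcase
    let g : ℕ → ℕ := fun m => max (m+1) ((F m).sup id + 1)
    let b : ℕ → ℕ := fun i => g^[i] 0
    have hbs : ∀ i, b (i+1) = g (b i) := fun i => Function.iterate_succ_apply' g i 0
    have hb : StrictMono b := strictMono_nat_of_lt_succ fun i => by
      rw [hbs]; exact lt_of_lt_of_le (Nat.lt_succ_self _) (le_max_left _ _)
    refine exists_split_of_intervals e b hb {i | i % 2 = 0} ?_
    have hall : ∀ (y : X) (i : ℕ), ∃ n, b i ≤ n ∧ n < b (i+1) ∧ y ∈ e n := by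
      intro y i
      have hy : y ∈ ⋃ n ∈ F (b i), e n := by rw [hF2]; trivial
      obtain ⟨n, hn, hyn⟩ := mem_iUnion₂.1 hy
      refine ⟨n, hF1 _ n hn, ?_, hyn⟩
      rw [hbs]
      refine lt_of_lt_of_le (Nat.lt_succ_of_le ?_) (le_max_right _ _)
      exact Finset.le_sup (f := id) hn
    intro y
    constructor
    · refine Set.infinite_of_forall_exists_gt fun a => ⟨2 * (a+1), ⟨by simp, hall y _⟩, by omega⟩
    · refine Set.infinite_of_forall_exists_gt fun a => ⟨2 * (a+1) + 1, ⟨?_, hall y _⟩, by omega⟩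
      show ¬ ((2 * (a+1) + 1) % 2 = 0)
      omega
  · push Not at hcase
    obtain ⟨m₀, hm₀⟩ := hcase
    -- `X` is infinite
    have hXinf : Infinite X := by
      by_contra hfin
      rw [not_infinite_iff_finite] at hfin
      have := Fintype.ofFinite X
      have : ∀ y : X, ∃ n, m₀ ≤ n ∧ y ∈ e n := fun y => by
        obtain ⟨n, hn, h⟩ := (hinf y).exists_gt m₀
        exact ⟨n, h.le, hn⟩
      choose f hf1 hf2 using this
      refine hm₀ (Finset.univ.image f) ?_ ?_
      · intro n hn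
        obtain ⟨y, -, rfl⟩ := Finset.mem_image.1 hn
        exact hf1 y
      · refine eq_univ_of_forall fun y => mem_iUnion₂.2 ⟨f y, ?_, hf2 y⟩
        exact Finset.mem_image_of_mem f (Finset.mem_univ y)
    let x : ℕ → X := Infinite.natEmbedding X
    have hx : Function.Injective x := (Infinite.natEmbedding X).injective
    let 𝒰 : Set (Set X) := {u | ∃ (m : ℕ) (F : Finset ℕ), F.Nonempty ∧ (∀ n ∈ F, m + m₀ ≤ n) ∧
      u = (⋃ n ∈ F, e n) \ {x m}}
    have hUfin : ∀ F : Set X, F.Finite → ∃ u ∈ 𝒰, F ⊆ u := by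
      intro S hSf
      obtain ⟨m, hm⟩ : ∃ m, x m ∉ S := by
        by_contra hcon
        push Not at hcon
        exact (infinite_range_of_injective hx) (hSf.subset (range_subset_iff.2 hcon))
      have hex : ∀ y : X, ∃ n, m + m₀ ≤ n ∧ y ∈ e n := fun y => by
        obtain ⟨n, hn, h⟩ := (hinf y).exists_gt (m+m₀)
        exact ⟨n, h.le, hn⟩
      choose f hf1 hf2 using hex
      refine ⟨_, ⟨m, insert (f (x 0)) (hSf.toFinset.image f), Finset.insert_nonempty _ _, ?_, rfl⟩, ?_⟩
      · intro n hn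
        rcases Finset.mem_insert.1 hn with rfl | hn
        · exact hf1 _
        · obtain ⟨y, -, rfl⟩ := Finset.mem_image.1 hn
          exact hf1 y
      · intro y hy
        refine ⟨mem_iUnion₂.2 ⟨f y, ?_, hf2 y⟩, ?_⟩
        · exact Finset.mem_insert_of_mem (Finset.mem_image_of_mem f (hSf.mem_toFinset.2 hy))
        · rintro rfl
          exact hm hy
    have hUom : 𝒰 ∈ OmegaCovers X := by
      refine ⟨⟨?_, ?_, ?_⟩, hUfin⟩
      · rintro _ ⟨m, F, -, -, rfl⟩
        exact (isOpen_biUnion fun n _ => he n).sdiff isClosed_singleton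
      · refine eq_univ_of_forall fun y => ?_
        obtain ⟨u, hu, hyu⟩ := hUfin {y} (finite_singleton y)
        exact ⟨u, hu, hyu rfl⟩
      · rintro ⟨m, F, -, -, h⟩
        have : x m ∈ (⋃ n ∈ F, e n) \ {x m} := by rw [← h]; trivial
        exact this.2 rfl
    obtain ⟨V, W, hVW, -, ⟨V', hV', hVV⟩, -⟩ := hS 𝒰 hUom
    have hV'U : V' ⊆ 𝒰 := fun v hv => hVW ▸ Or.inl (hVV hv)
    obtain ⟨B, hBV, hB1, hB2⟩ := exists_subfamily hV' x
    -- enumerate `B`
    have hBinf : B.Infinite := by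
      obtain ⟨x0⟩ := ‹Nonempty X›
      exact (hB1 x0).mono fun v hv => hv.1
    have hBcount : B.Countable := by
      have : 𝒰 ⊆ range fun p : ℕ × Finset ℕ => (⋃ n ∈ p.2, e n) \ {x p.1} := by
        rintro _ ⟨m, F, -, -, rfl⟩
        exact ⟨(m, F), rfl⟩
      exact (countable_range _).mono ((hBV.trans hV'U).trans this)
    have : Countable B := hBcount.to_subtype
    have : Infinite B := hBinf.to_subtype
    obtain ⟨φ⟩ : Nonempty (ℕ ≃ B) := by
      have := Classical.choice (nonempty_denumerable B)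
      exact ⟨(Denumerable.eqv B).symm⟩
    let v : ℕ → Set X := fun k => (φ k : Set X)
    have hvinj : Function.Injective v := Subtype.val_injective.comp φ.injective
    have hvB : ∀ k, v k ∈ B := fun k => (φ k).2
    have hv1 : ∀ y, {k | y ∈ v k}.Infinite := by
      intro y hfin
      refine hB1 y ((hfin.image v).subset ?_)
      rintro w ⟨hw, hyw⟩
      refine ⟨φ.symm ⟨w, hw⟩, ?_, ?_⟩
      · show y ∈ (φ (φ.symm ⟨w, hw⟩) : Set X)
        rw [Equiv.apply_symm_apply]; exact hyw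
      · show (φ (φ.symm ⟨w, hw⟩) : Set X) = w
        rw [Equiv.apply_symm_apply]
    have hv2 : ∀ m, {k | x m ∉ v k}.Finite := by
      intro m
      refine Set.Finite.of_finite_image ((hB2 m).subset ?_) hvinj.injOn
      rintro _ ⟨k, hk, rfl⟩
      exact ⟨hvB k, hk⟩
    have hvlin : ∀ y z, ({k | y ∈ v k} \ {k | z ∈ v k}).Finite ∨
        ({k | z ∈ v k} \ {k | y ∈ v k}).Finite := by
      intro y z
      refine (hV'.2.2 y z).imp (fun h => ?_) (fun h => ?_)
      · refine Set.Finite.of_finite_image (h.subset ?_) hvinj.injOn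
        rintro _ ⟨k, hk, rfl⟩
        exact ⟨hBV (hvB k), hk.1, hk.2⟩
      · refine Set.Finite.of_finite_image (h.subset ?_) hvinj.injOn
        rintro _ ⟨k, hk, rfl⟩
        exact ⟨hBV (hvB k), hk.1, hk.2⟩
    have hvU : ∀ k, ∃ (m : ℕ) (F : Finset ℕ), F.Nonempty ∧ (∀ n ∈ F, m + m₀ ≤ n) ∧
      v k = (⋃ n ∈ F, e n) \ {x m} := fun k => hV'U (hBV (hvB k))
    choose mm F hFne hFm hvF using hvU
    have hmm : ∀ M, {k | mm k < M}.Finite := by
      intro M
      have : {k | mm k < M} ⊆ ⋃ m ∈ {m | m < M}, {k | x m ∉ v k} := by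
        intro k hk
        refine mem_iUnion₂.2 ⟨mm k, hk, ?_⟩
        show x (mm k) ∉ v k
        rw [hvF k]
        exact fun h => h.2 rfl
      exact ((Set.finite_lt_nat M).biUnion fun m _ => hv2 m).subset this
    -- the least element of `F k`
    let μ : ℕ → ℕ := fun k => (F k).min' (hFne k)
    have hμmem : ∀ k, μ k ∈ F k := fun k => Finset.min'_mem _ _
    have hμle : ∀ k, ∀ n ∈ F k, μ k ≤ n := fun k n hn => Finset.min'_le _ _ hn
    have hμfin : ∀ M, {k | μ k < M}.Finite := by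
      intro M
      refine (hmm M).subset fun k hk => ?_
      have := hFm k _ (hμmem k)
      have hk' : μ k < M := hk
      show mm k < M
      omega
    -- the interval endpoints
    have hg : ∀ M, ∃ M', M < M' ∧ ∀ k, μ k < M → ∀ n ∈ F k, n < M' := by
      intro M
      refine ⟨max (M+1) ((hμfin M).toFinset.sup (fun k => (F k).sup id) + 1), ?_, ?_⟩
      · exact lt_of_lt_of_le (Nat.lt_succ_self _) (le_max_left _ _)
      · intro k hk n hn
        refine lt_of_lt_of_le (Nat.lt_succ_of_le ?_) (le_max_right _ _)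
        have h1 : n ≤ (F k).sup id := Finset.le_sup (f := id) hn
        have h2 : (F k).sup id ≤ (hμfin M).toFinset.sup (fun k => (F k).sup id) :=
          Finset.le_sup (f := fun k => (F k).sup id) ((hμfin M).mem_toFinset.2 hk)
        exact h1.trans h2
    choose g hg1 hg2 using hg
    let b : ℕ → ℕ := fun i => g^[i] 0
    have hb0 : b 0 = 0 := rfl
    have hbs : ∀ i, b (i+1) = g (b i) := fun i => Function.iterate_succ_apply' g i 0
    have hb : StrictMono b := strictMono_nat_of_lt_succ fun i => by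
      rw [hbs]; exact hg1 _
    -- the index of the interval containing `μ k`
    have hidx : ∀ k, ∃ i, b i ≤ μ k ∧ μ k < b (i+1) := by
      intro k
      have hex : ∃ i, μ k < b (i+1) := ⟨μ k, lt_of_lt_of_le (Nat.lt_succ_self _) (hb.id_le _)⟩
      refine ⟨Nat.find hex, ?_, Nat.find_spec hex⟩
      rcases Nat.eq_zero_or_pos (Nat.find hex) with h | h
      · rw [h, hb0]; exact Nat.zero_le _
      · obtain ⟨j, hj⟩ := Nat.exists_eq_succ_of_ne_zero h.ne'
        have := Nat.find_min hex (m := j) (by omega)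
        rw [hj]
        exact not_lt.1 this
    choose idx hidx1 hidx2 using hidx
    have hFint : ∀ k, ∀ n ∈ F k, b (idx k) ≤ n ∧ n < b (idx k + 2) := by
      intro k n hn
      refine ⟨(hidx1 k).trans (hμle k n hn), ?_⟩
      rw [show idx k + 2 = (idx k + 1) + 1 from rfl, hbs]
      exact hg2 _ k (hidx2 k) n hn
    have hidxfin : ∀ i, {k | idx k ≤ i}.Finite := by
      intro i
      refine (hμfin (b (i+1))).subset fun k hk => ?_
      exact lt_of_lt_of_le (hidx2 k) (hb.monotone (Nat.succ_le_succ hk))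
    let G : ℕ → Set X := fun i => ⋃ k ∈ {k | idx k = i}, v k
    have hGmem : ∀ i y, y ∈ G i ↔ ∃ k, idx k = i ∧ y ∈ v k := by
      intro i y
      simp [G]
    have hGopen : ∀ i, IsOpen (G i) := by
      intro i
      exact isOpen_biUnion fun k _ => hV'.1.1 _ (hBV (hvB k))
    have hGinf : ∀ y, {i | y ∈ G i}.Infinite := by
      intro y hfin
      obtain ⟨N, hN⟩ := hfin.bddAbove
      refine hv1 y ((hidxfin N).subset fun k hk => ?_)
      exact hN ((hGmem (idx k) y).2 ⟨k, rfl, hk⟩)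
    have hGlin' : ∀ y z, ({k | y ∈ v k} \ {k | z ∈ v k}).Finite →
        ({i | y ∈ G i} \ {i | z ∈ G i}).Finite := by
      intro y z h
      refine (h.image idx).subset ?_
      rintro i ⟨hi1, hi2⟩
      obtain ⟨k, hk, hyk⟩ := (hGmem i y).1 hi1
      refine ⟨k, ⟨hyk, fun hzk => hi2 ((hGmem i z).2 ⟨k, hk, hzk⟩)⟩, hk⟩
    have hGlin : ∀ y z, ({i | y ∈ G i} \ {i | z ∈ G i}).Finite ∨
        ({i | z ∈ G i} \ {i | y ∈ G i}).Finite := fun y z =>
      (hvlin y z).imp (hGlin' y z) (hGlin' z y)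
    -- choose a parity
    obtain ⟨p, hp⟩ : ∃ p : ℕ, ∀ y, {i | y ∈ G (2 * i + p)}.Infinite := by
      have hpar : ∀ (p : ℕ) (y : X), ({i | y ∈ G i} ∩ {i | i % 2 = p}).Infinite → p < 2 →
          {i | y ∈ G (2 * i + p)}.Infinite := by
        intro p y h hp hfin
        refine h ((hfin.image fun i => 2 * i + p).subset ?_)
        rintro i ⟨hi1, hi2⟩
        have hi2' : i % 2 = p := hi2
        have h3 : 2 * (i / 2) + p = i := by omega
        refine ⟨i / 2, ?_, h3⟩
        show y ∈ G (2 * (i/2) + p)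
        rw [h3]; exact hi1
      rcases exists_side (fun y => {i | y ∈ G i}) hGinf hGlin {i | i % 2 = 0} with h | h
      · exact ⟨0, fun y => hpar 0 y (h y) (by omega)⟩
      · refine ⟨1, fun y => hpar 1 y ((h y).mono ?_) (by omega)⟩
        rintro i ⟨hi1, hi2⟩
        refine ⟨hi1, ?_⟩
        have : ¬ (i % 2 = 0) := hi2
        show i % 2 = 1
        omega
    obtain ⟨I, hI⟩ := exists_split_index hS (fun i => G (2 * i + p)) (fun i => hGopen _) hp
      (fun y z => (hGlin y z).imp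
        (fun h => Set.Finite.of_finite_image (f := fun i => 2 * i + p) (h.subset (by
          rintro _ ⟨i, hi, rfl⟩; exact ⟨hi.1, hi.2⟩)) (fun a _ b _ h => by simpa using h))
        (fun h => Set.Finite.of_finite_image (f := fun i => 2 * i + p) (h.subset (by
          rintro _ ⟨i, hi, rfl⟩; exact ⟨hi.1, hi.2⟩)) (fun a _ b _ h => by simpa using h)))
    have hwit : ∀ y i, y ∈ G (2 * i + p) → ∃ n, b (2 * i + p) ≤ n ∧ n < b (2 * (i+1) + p) ∧ y ∈ e n := by
      intro y i hy
      obtain ⟨k, hk, hyk⟩ := (hGmem _ y).1 hy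
      rw [hvF k] at hyk
      obtain ⟨n, hn, hyn⟩ := mem_iUnion₂.1 hyk.1
      obtain ⟨h1, h2⟩ := hFint k n hn
      rw [hk] at h1 h2
      refine ⟨n, h1, ?_, hyn⟩
      rw [show 2 * (i+1) + p = 2 * i + p + 2 by ring]
      exact h2
    refine exists_split_of_intervals e (fun i => b (2 * i + p))
      (fun i j hij => hb (by omega)) I fun y => ⟨(hI y).1.mono ?_, (hI y).2.mono ?_⟩
    · rintro i ⟨hi1, hi2⟩
      exact ⟨hi1, hwit y i hi2⟩
    · rintro i ⟨hi1, hi2⟩
      exact ⟨hi1, hwit y i hi2⟩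

/-- For second countable T1 spaces, `Split(Omega, T)` implies `Split(Lambda, Lambda)`. -/
theorem split_lambda_of_split_omega_tau {X : Type*} [TopologicalSpace X]
    [SecondCountableTopology X] [T1Space X]
    (hS : Split (OmegaCovers X) (TauCovers X)) : Split (LambdaCovers X) (LambdaCovers X) := by
  intro U hU
  obtain ⟨U', hU'U, hU'c, hU'inf⟩ := exists_countable_lambda hU
  have hU'univ : univ ∉ U' := fun h => hU.1.2.2 (hU'U h)
  -- a subfamily of `U` in which every point is infinitely often is a large cover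
  have hlam : ∀ Z : Set (Set X), Z ⊆ U → (∀ y, {z ∈ Z | y ∈ z}.Infinite) → Z ∈ LambdaCovers X := by
    intro Z hZ hinf
    refine ⟨⟨fun z hz => hU.1.1 z (hZ hz), ?_, fun h => hU.1.2.2 (hZ h)⟩, hinf⟩
    refine eq_univ_of_forall fun y => ?_
    obtain ⟨z, hz, hyz⟩ := (hinf y).nonempty
    exact ⟨z, hz, hyz⟩
  rcases isEmpty_or_nonempty X with hX | hX
  · refine ⟨U, ∅, by simp, by simp, ⟨U, hU, Subset.rfl⟩, ⟨∅, ?_, Subset.rfl⟩⟩
    exact hlam ∅ (empty_subset _) fun y => (hX.false y).elim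
  · obtain ⟨x0⟩ := id hX
    have : Countable U' := hU'c.to_subtype
    have : Infinite U' := ((hU'inf x0).mono fun v hv => hv.1).to_subtype
    obtain ⟨φ⟩ : Nonempty (ℕ ≃ U') := by
      have := Classical.choice (nonempty_denumerable U')
      exact ⟨(Denumerable.eqv U').symm⟩
    let e : ℕ → Set X := fun k => (φ k : Set X)
    have heinj : Function.Injective e := Subtype.val_injective.comp φ.injective
    have heU : ∀ k, e k ∈ U' := fun k => (φ k).2
    have hesurj : ∀ u ∈ U', ∃ k, e k = u := by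
      intro u hu
      refine ⟨φ.symm ⟨u, hu⟩, ?_⟩
      show (φ (φ.symm ⟨u, hu⟩) : Set X) = u
      rw [Equiv.apply_symm_apply]
    have heinf : ∀ y, {n | y ∈ e n}.Infinite := by
      intro y hfin
      refine hU'inf y ((hfin.image e).subset ?_)
      rintro w ⟨hw, hyw⟩
      obtain ⟨k, rfl⟩ := hesurj w hw
      exact ⟨k, hyw, rfl⟩
    obtain ⟨A, hA⟩ := exists_split_sequence hS e (fun n => hU.1.1 _ (hU'U (heU n))) heinf
    refine ⟨e '' A, U \ e '' A, ?_, disjoint_sdiff_right, ⟨e '' A, ?_, Subset.rfl⟩,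
      ⟨e '' Aᶜ, ?_, ?_⟩⟩
    · refine union_sdiff_cancel ?_
      rintro _ ⟨k, -, rfl⟩
      exact hU'U (heU k)
    · refine hlam _ ?_ ?_
      · rintro _ ⟨k, -, rfl⟩
        exact hU'U (heU k)
      · intro y
        refine (((hA y).1.image heinj.injOn)).mono ?_
        rintro _ ⟨k, ⟨hk1, hk2⟩, rfl⟩
        exact ⟨⟨k, hk1, rfl⟩, hk2⟩
    · refine hlam _ ?_ ?_
      · rintro _ ⟨k, -, rfl⟩
        exact hU'U (heU k)
      · intro y
        refine (((hA y).2.image heinj.injOn)).mono ?_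
        rintro _ ⟨k, ⟨hk1, hk2⟩, rfl⟩
        exact ⟨⟨k, hk1, rfl⟩, hk2⟩
    · rintro _ ⟨k, hk, rfl⟩
      refine ⟨hU'U (heU k), ?_⟩
      rintro ⟨j, hj, hjk⟩
      exact hk (heinj hjk ▸ hj)

end Pool.Agent.Helper55
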