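import Pool.Agent.Helper55.Fusion

/-!
The transfinite construction of the tower, indexed by a well-ordered type with countable
initial segments.
-/

namespace Pool.Agent.Helper55

open Set Filter

/-- Codes for sequences of open families. -/
abbrev Code := Set (ℕ × Finset ℕ × ℕ)

/-- The `n`-th open family coded by `c`. -/
def fam (c : Code) (n : ℕ) : Set (Set ℕ) :=
  {A | ∃ (S : Finset ℕ) (m : ℕ), (n, S, m) ∈ c ∧ ∀ i < m, (i ∈ A ↔ i ∈ S)}

lemma fam_open (c : Code) (n : ℕ) : OpenFam (fam c n) := by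
  rintro A ⟨S, m, hc, hA⟩
  exact ⟨m, fun B hB => ⟨S, m, hc, fun i hi => (hB i hi).trans (hA i hi)⟩⟩

lemma exists_code (U : ℕ → Set (Set ℕ)) (hU : ∀ n, OpenFam (U n)) :
    ∃ c : Code, ∀ n, fam c n = U n := by
  classical
  refine ⟨{q | ∀ B : Set ℕ, (∀ i < q.2.2, (i ∈ B ↔ i ∈ q.2.1)) → B ∈ U q.1}, fun n => ?_⟩
  ext A
  constructor
  · rintro ⟨S, m, hc, hA⟩
    exact hc A hA
  · intro hA
    obtain ⟨m, hm⟩ := hU n A hA
    have hS : ∀ i < m, (i ∈ A ↔ i ∈ (Finset.range m).filter (· ∈ A)) := by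
      intro i hi
      simp [hi]
    refine ⟨(Finset.range m).filter (· ∈ A), m, ?_, hS⟩
    intro B hB
    exact hm B fun i hi => (hB i hi).trans (hS i hi).symm

/-- The requirement on the block sequence chosen at stage `a`, given the earlier ones. -/
def GoodAt {I : Type*} [LinearOrder I] (task : I → Code × Set ℕ) (a : I)
    (G : I → ℕ → Finset ℕ) (t : ℕ → Finset ℕ) : Prop :=
  Block t ∧ (∀ b < a, AR t (Merge (G b))) ∧
  ((task a).2.Infinite → ((task a).2 \ Un t).Infinite) ∧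
  ((∃ F : Set (Set ℕ), F.Finite ∧ (∀ A ∈ F, AE A (Un t) ∨ ∃ b < a, AE A (Un (G b))) ∧
      {n | F ⊆ fam (task a).1 n}.Finite) ∨
    (∃ n : ℕ → ℕ, StrictMono n ∧
      (∀ b < a, ∀ A, AE A (Un (G b)) → ∀ᶠ k in atTop, A ∈ fam (task a).1 (n k)) ∧
      ∀ L : Set ℕ, L.Infinite → ∀ B : Set ℕ, AE B (UnL t L) →
        (∀ᶠ k in atTop, B ∈ fam (task a).1 (n k)) ∨
        (∀ᶠ k in atTop, (B ∈ fam (task a).1 (n k) ↔ k ∈ L))))

lemma countable_AE (X : Set ℕ) : {A : Set ℕ | AE A X}.Countable := by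
  classical
  have : {A : Set ℕ | AE A X} ⊆ range fun q : Finset ℕ × Finset ℕ => (X \ q.1) ∪ (q.2 : Set ℕ) := by
    rintro A ⟨h1, h2⟩
    refine ⟨(h2.toFinset, h1.toFinset), ?_⟩
    ext n
    simp only [Finite.coe_toFinset, mem_union, Set.mem_sdiff]
    tauto
  exact (countable_range _).mono this

lemma Un_subset_of_refines {s t : ℕ → Finset ℕ} (h : ∀ k, s k ∈ FU t) : Un s ⊆ Un t := by
  rintro n ⟨k, hk⟩
  exact FU_subset_Un (h k) n hk

lemma exists_goodAt {I : Type*} [LinearOrder I] (task : I → Code × Set ℕ) (a : I)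
    (hcount : (Iio a).Countable) (G : I → ℕ → Finset ℕ) (hG : ∀ b < a, Block (G b))
    (hch : ∀ b b', b < b' → b' < a → AR (G b') (Merge (G b))) :
    ∃ t, GoodAt task a G t := by
  classical
  -- a lower bound
  obtain ⟨t0, ht0, ht0'⟩ : ∃ t0, Block t0 ∧ ∀ b < a, AR t0 (Merge (G b)) := by
    rcases (Iio a).eq_empty_or_nonempty with h | h
    · refine ⟨fun k => {k}, ⟨fun k => by simp, fun k i hi j hj => ?_⟩, fun b hb => ?_⟩
      · rw [Finset.mem_singleton] at hi hj
        omega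
      · exact absurd (show b ∈ Iio a from hb) (by rw [h]; simp)
    · obtain ⟨f, hf⟩ := hcount.exists_eq_range h
      have hfa : ∀ i, f i < a := fun i => by
        have : f i ∈ Iio a := by rw [hf]; exact ⟨i, rfl⟩
        exact this
      obtain ⟨t0, h1, h2⟩ := exists_lower_bound (σ := fun i => Merge (G (f i)))
        (fun i => (hG _ (hfa i)).merge) (by
          intro i j
          rcases lt_trichotomy (f i) (f j) with hij | hij | hij
          · right
            exact (AR_merge _).trans (hG _ (hfa j)).merge (hG _ (hfa j)) (hch _ _ hij (hfa j))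
          · left; rw [hij]; exact AR.refl _
          · left
            exact (AR_merge _).trans (hG _ (hfa i)).merge (hG _ (hfa i)) (hch _ _ hij (hfa i)))
      refine ⟨t0, h1, fun b hb => ?_⟩
      have : b ∈ range f := by rw [← hf]; exact hb
      obtain ⟨i, rfl⟩ := this
      exact h2 i
  -- avoid the given set
  obtain ⟨t1, ht1, ht10, ht1z⟩ : ∃ t1, Block t1 ∧ (∀ k, t1 k ∈ FU t0) ∧
      ((task a).2.Infinite → ((task a).2 \ Un t1).Infinite) := by
    by_cases hz : (task a).2.Infinite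
    · obtain ⟨s, h1, h2, h3⟩ := exists_avoid ht0 hz
      exact ⟨s, h1, h2, fun _ => h3⟩
    · exact ⟨t0, ht0, fun k => mem_FU_self _ _, fun h => absurd h hz⟩
  -- enumerate the earlier points
  let 𝒟 : Set (Set ℕ) := insert (Un t1) (⋃ b ∈ Iio a, {A : Set ℕ | AE A (Un (G b))})
  have h𝒟 : 𝒟.Countable := (hcount.biUnion fun b _ => countable_AE _).insert _
  obtain ⟨x, hx⟩ := h𝒟.exists_eq_range ⟨_, Or.inl rfl⟩
  have hx1 : ∀ i, x i = Un t1 ∨ ∃ b < a, AE (x i) (Un (G b)) := by
    intro i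
    have : x i ∈ 𝒟 := by rw [hx]; exact ⟨i, rfl⟩
    rcases this with h | h
    · exact Or.inl h
    · obtain ⟨b, hb, h⟩ := mem_iUnion₂.1 h
      exact Or.inr ⟨b, hb, h⟩
  have hx2 : ∀ b < a, ∀ A, AE A (Un (G b)) → ∃ i, x i = A := by
    intro b hb A hA
    have : A ∈ 𝒟 := Or.inr (mem_iUnion₂.2 ⟨b, hb, hA⟩)
    rw [hx] at this
    exact this
  have hfinal : ∀ t, Block t → (∀ k, t k ∈ FU t1) → Block t ∧ (∀ b < a, AR t (Merge (G b))) ∧
      ((task a).2.Infinite → ((task a).2 \ Un t).Infinite) := by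
    intro t ht htr
    refine ⟨ht, fun b hb => ?_, fun hz => ?_⟩
    · have h1 : AR t t0 := Eventually.of_forall (refines_trans htr ht10)
      exact h1.trans ht ht0 (ht0' b hb)
    · exact (ht1z hz).mono (Set.sdiff_subset_sdiff_right (Un_subset_of_refines htr))
  by_cases hP : ∀ F : Set (Set ℕ), F.Finite → (∀ A ∈ F, (∃ i, A = x i) ∨ AE A (Un t1)) →
      {n | F ⊆ fam (task a).1 n}.Infinite
  · obtain ⟨t, n, h1, h2, h3, h4, h5⟩ := one_step ht1 x (fam (task a).1) (fam_open _) hP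
    obtain ⟨g1, g2, g3⟩ := hfinal t h1 h2
    refine ⟨t, g1, g2, g3, Or.inr ⟨n, h3, ?_, h5⟩⟩
    intro b hb A hA
    obtain ⟨i, rfl⟩ := hx2 b hb A hA
    exact h4 i
  · push Not at hP
    obtain ⟨F, hF1, hF2, hF3⟩ := hP
    obtain ⟨g1, g2, g3⟩ := hfinal t1 ht1 fun k => mem_FU_self _ _
    refine ⟨t1, g1, g2, g3, Or.inl ⟨F, hF1, ?_, hF3⟩⟩
    intro A hA
    rcases hF2 A hA with ⟨i, rfl⟩ | h
    · rcases hx1 i with h | h
      · left; rw [h]; exact AE.refl _
      · exact Or.inr h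
    · exact Or.inl h

/-- Recursion along a well-founded linear order. -/
lemma exists_recursion {I X : Type*} [LinearOrder I] [WellFoundedLT I] [Nonempty X]
    (P : I → (I → X) → X → Prop)
    (hloc : ∀ a G G' x, (∀ b < a, G b = G' b) → P a G x → P a G' x)
    (hex : ∀ a G, (∀ b < a, P b G (G b)) → ∃ x, P a G x) :
    ∃ F : I → X, ∀ a, P a F (F a) := by
  classical
  let x0 : X := Classical.choice ‹_›
  let ext : (a : I) → ((b : I) → b < a → X) → I → X := fun a prev b =>
    if h : b < a then prev b h else x0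
  let F : I → X := WellFounded.fix (wellFounded_lt (α := I)) (C := fun _ => X) (fun a prev =>
    if h : ∃ x, P a (ext a prev) x then h.choose else x0)
  have hF : ∀ a, F a = if h : ∃ x, P a (ext a fun b _ => F b) x then h.choose else x0 :=
    fun a => WellFounded.fix_eq _ _ a
  refine ⟨F, fun a => ?_⟩
  induction a using WellFoundedLT.induction with
  | ind a ih =>
    have hagree : ∀ b < a, (ext a fun b _ => F b) b = F b := fun b hb => by
      simp only [ext, dif_pos hb]
    have h1 : ∃ x, P a (ext a fun b _ => F b) x := by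
      refine hex a _ fun b hb => ?_
      rw [hagree b hb]
      exact hloc b F _ (F b) (fun c hc => (hagree c (hc.trans hb)).symm) (ih b hb)
    have h2 := hF a
    rw [dif_pos h1] at h2
    rw [h2]
    exact hloc a _ F _ hagree h1.choose_spec

lemma exists_tower {I : Type*} [LinearOrder I] [WellFoundedLT I] (hI : ∀ a : I, (Iio a).Countable)
    (task : I → Code × Set ℕ) : ∃ F : I → ℕ → Finset ℕ, ∀ a, GoodAt task a F (F a) := by
  refine exists_recursion (GoodAt task) ?_ ?_
  · intro a G G' t hGG' h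
    obtain ⟨h1, h2, h3, h4⟩ := h
    refine ⟨h1, fun b hb => hGG' b hb ▸ h2 b hb, h3, ?_⟩
    rcases h4 with ⟨F, hF1, hF2, hF3⟩ | ⟨n, hn1, hn2, hn3⟩
    · refine Or.inl ⟨F, hF1, fun A hA => ?_, hF3⟩
      rcases hF2 A hA with h | ⟨b, hb, h⟩
      · exact Or.inl h
      · exact Or.inr ⟨b, hb, hGG' b hb ▸ h⟩
    · exact Or.inr ⟨n, hn1, fun b hb A hA => hn2 b hb A (by rw [hGG' b hb]; exact hA), hn3⟩
  · intro a G hG
    exact exists_goodAt task a (hI a) G (fun b hb => (hG b hb).1)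
      fun b b' hbb' hb' => (hG b' hb').2.1 b hbb'

end Pool.Agent.Helper55
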