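import Pool.Agent.Helper55.TowerSpace

/-!
Under the continuum hypothesis there is a set of reals with `Split(Omega, T)` but without
`Split(T, Gamma)`.
-/

namespace Pool.Agent.Helper55

open Set Filter Topology Cardinal

lemma exists_tasks (hCH : (Cardinal.continuum : Cardinal.{0}) = Cardinal.aleph 1) :
    ∃ task : (Cardinal.aleph.{0} 1).ord.ToType → Code × Set ℕ, Function.Surjective task := by
  have h1 : #(Code × Set ℕ) = Cardinal.continuum := by
    rw [Cardinal.mk_prod, Cardinal.lift_id, Cardinal.lift_id]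
    have h2 : #Code = Cardinal.continuum := by
      rw [Cardinal.mk_set]
      rw [← Cardinal.two_power_aleph0]
      congr 1
      exact Cardinal.mk_eq_aleph0 _
    rw [h2, Cardinal.mk_set_nat, Cardinal.continuum_mul_self]
  have h3 : #((Cardinal.aleph.{0} 1).ord.ToType) = #(Code × Set ℕ) := by
    rw [Cardinal.mk_ord_toType, h1, hCH]
  obtain ⟨e⟩ := Cardinal.eq.1 h3
  exact ⟨e, e.surjective⟩

lemma countable_Iio (a : (Cardinal.aleph.{0} 1).ord.ToType) : (Iio a).Countable := by
  rw [← Cardinal.le_aleph0_iff_set_countable, ← Cardinal.lt_aleph_one_iff]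
  have h := Cardinal.mk_Iio_lt a (by simp)
  simpa using h

/-- The main construction. -/
theorem exists_set_of_reals (hCH : (Cardinal.continuum : Cardinal.{0}) = Cardinal.aleph 1) :
    ∃ X : Set ℝ, Split (OmegaCovers X) (TauCovers X) ∧ ¬ Split (TauCovers X) (GammaCovers X) := by
  classical
  obtain ⟨task, htask⟩ := exists_tasks hCH
  obtain ⟨F, hF⟩ := exists_tower countable_Iio task
  -- the set of reals
  let Y : Set (ℕ → Bool) := {f | ∃ a, AE {n | f n = true} (Un (F a))}
  let h : cantorSet ≃ₜ (ℕ → Bool) := cantorSetHomeomorphNatToBool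
  let X : Set ℝ := Subtype.val '' (h ⁻¹' Y)
  have hXC : X ⊆ cantorSet := by
    rintro _ ⟨y, -, rfl⟩
    exact y.2
  let ψ : X → ℕ → Bool := fun x => h (Set.inclusion hXC x)
  have hψ : IsInducing ψ := h.isInducing.comp (Topology.IsEmbedding.inclusion hXC).isInducing
  have hr : ∀ x, ∃ a, AE (tr ψ x) (Un (F a)) := by
    rintro ⟨_, y, hy, rfl⟩
    exact hy
  have hr' : ∀ a A, AE A (Un (F a)) → ∃ x, tr ψ x = A := by
    intro a A hA
    let f : ℕ → Bool := fun n => decide (n ∈ A)
    have hf : {n | f n = true} = A := by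
      ext n; simp [f]
    have hfY : f ∈ Y := ⟨a, by rw [hf]; exact hA⟩
    refine ⟨⟨(h.symm f : ℝ), h.symm f, ?_, rfl⟩, ?_⟩
    · show h (h.symm f) ∈ Y
      rw [h.apply_symm_apply]; exact hfY
    · show {n | h (h.symm f) n = true} = A
      rw [h.apply_symm_apply]; exact hf
  refine ⟨X, ?_, ?_⟩
  · refine tower_split_omega_tau hF hψ hr hr' fun c => ?_
    obtain ⟨a, ha⟩ := htask (c, ∅)
    exact ⟨a, by rw [ha]⟩
  · refine tower_not_split_tau_gamma hF hψ hr hr' fun z => ?_
    obtain ⟨a, ha⟩ := htask (∅, z)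
    exact ⟨a, by rw [ha]⟩

end Pool.Agent.Helper55
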