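import Pool.Agent.Helper55.Tower
import Pool.Agent.Helper55.Covers

/-!
The space of finite modifications of the tower: `Split(Omega, T)` holds and `Split(T, Gamma)`
fails.
-/

namespace Pool.Agent.Helper55

open Set Filter Topology

/-- An open omega-cover of a second countable space contains a countable omega-subcover. -/
lemma exists_countable_omega {X : Type*} [TopologicalSpace X] [SecondCountableTopology X]
    {U : Set (Set X)} (hU : U ∈ OmegaCovers X) :
    ∃ U' ⊆ U, U'.Countable ∧ ∀ F : Set X, F.Finite → ∃ u ∈ U', F ⊆ u := by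
  obtain ⟨⟨hopen, -, -⟩, hom⟩ := hU
  have key : ∀ r : ℕ, ∃ T : Set (Set X), T.Countable ∧ T ⊆ U ∧
      ∀ f : Fin r → X, ∃ u ∈ T, ∀ i, f i ∈ u := by
    intro r
    obtain ⟨T, hTU, hTc, hT⟩ := TopologicalSpace.isOpen_biUnion_countable U
      (fun u => {f : Fin r → X | ∀ i, f i ∈ u}) (fun u hu => by
        have : {f : Fin r → X | ∀ i, f i ∈ u} = Set.univ.pi fun _ => u := by
          ext f; simp
        rw [this]
        exact isOpen_set_pi finite_univ fun _ _ => hopen u hu)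
    refine ⟨T, hTc, hTU, fun f => ?_⟩
    have hf : f ∈ ⋃ u ∈ U, {f : Fin r → X | ∀ i, f i ∈ u} := by
      obtain ⟨u, hu, hfu⟩ := hom (range f) (finite_range f)
      exact mem_iUnion₂.2 ⟨u, hu, fun i => hfu ⟨i, rfl⟩⟩
    rw [← hT] at hf
    obtain ⟨u, hu, hfu⟩ := mem_iUnion₂.1 hf
    exact ⟨u, hu, hfu⟩
  choose T hTc hTU hT using key
  refine ⟨⋃ r, T r, iUnion_subset hTU, countable_iUnion hTc, fun F hF => ?_⟩
  obtain ⟨r, f, hf⟩ : ∃ (r : ℕ) (f : Fin r → X), range f = F := by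
    have := hF.to_subtype
    obtain ⟨r, ⟨e⟩⟩ := Finite.exists_equiv_fin F
    refine ⟨r, fun i => (e.symm i : X), ?_⟩
    ext x
    constructor
    · rintro ⟨i, rfl⟩
      exact (e.symm i).2
    · intro hx
      exact ⟨e ⟨x, hx⟩, by simp⟩
  obtain ⟨u, hu, hfu⟩ := hT r f
  refine ⟨u, mem_iUnion.2 ⟨r, hu⟩, ?_⟩
  rw [← hf]
  rintro _ ⟨i, rfl⟩
  exact hfu i

/-- The set of naturals coded by a point. -/
def tr {X : Type*} (ψ : X → ℕ → Bool) (x : X) : Set ℕ := {n | ψ x n = true}

lemma open_to_fam {X : Type*} [TopologicalSpace X] {ψ : X → ℕ → Bool} (hψ : IsInducing ψ)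
    {u : Set X} (hu : IsOpen u) : ∃ U, OpenFam U ∧ ∀ x, x ∈ u ↔ tr ψ x ∈ U := by
  classical
  obtain ⟨O, hO, rfl⟩ := hψ.isOpen_iff.1 hu
  refine ⟨{A | (fun n => decide (n ∈ A)) ∈ O}, ?_, fun x => ?_⟩
  · intro A hA
    obtain ⟨I, w, hw, hsub⟩ := isOpen_pi_iff.1 hO _ hA
    refine ⟨I.sup id + 1, fun B hB => hsub ?_⟩
    intro i hi
    have h1 : i < I.sup id + 1 := Nat.lt_succ_of_le (Finset.le_sup (f := id) hi)
    have h2 := (hw i hi).2
    have h3 : decide (i ∈ B) = decide (i ∈ A) := by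
      simp [hB i h1]
    show decide (i ∈ B) ∈ w i
    rw [h3]
    exact h2
  · show ψ x ∈ O ↔ (fun n => decide (n ∈ tr ψ x)) ∈ O
    have : (fun n => decide (n ∈ tr ψ x)) = ψ x := by
      funext n
      have h1 : n ∈ tr ψ x ↔ ψ x n = true := Iff.rfl
      simp only [h1]
      cases ψ x n <;> simp
    rw [this]

lemma coord_open {X : Type*} [TopologicalSpace X] {ψ : X → ℕ → Bool} (hψ : IsInducing ψ)
    (n : ℕ) : IsOpen {x | n ∈ tr ψ x} := by
  have h1 : Continuous fun x => ψ x n := (continuous_apply n).comp hψ.continuous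
  exact (isOpen_discrete ({true} : Set Bool)).preimage h1

section Tower

variable {I : Type*} [LinearOrder I] {task : I → Code × Set ℕ} {F : I → ℕ → Finset ℕ}
  (hF : ∀ a, GoodAt task a F (F a))
include hF

lemma tower_sdiff {b b' : I} (h : b ≤ b') : (Un (F b') \ Un (F b)).Finite := by
  rcases eq_or_lt_of_le h with rfl | h
  · simp
  · have h1 := (hF b').2.1 b h
    refine h1.sdiff_finite.subset (Set.sdiff_subset_sdiff_right ?_)
    exact Un_subset_of_refines (merge_mem_FU (F b))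

variable {X : Type*} [TopologicalSpace X] {ψ : X → ℕ → Bool}

omit hF in
lemma AE.sdiff_finite_of {A B A' B' : Set ℕ} (h1 : AE A A') (h2 : AE B B')
    (h : (A' \ B').Finite) : (A \ B).Finite :=
  sdiff_finite_trans h1.1 (sdiff_finite_trans h h2.2)

omit [TopologicalSpace X] in
lemma tr_linear (hr : ∀ x, ∃ a, AE (tr ψ x) (Un (F a))) (y z : X) :
    (tr ψ y \ tr ψ z).Finite ∨ (tr ψ z \ tr ψ y).Finite := by
  obtain ⟨b, hb⟩ := hr y
  obtain ⟨b', hb'⟩ := hr z
  rcases le_total b b' with h | h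
  · exact Or.inr (hb'.sdiff_finite_of hb (tower_sdiff hF h))
  · exact Or.inl (hb.sdiff_finite_of hb' (tower_sdiff hF h))

/-- `Split(Omega, T)` holds for the tower space. -/
theorem tower_split_omega_tau [SecondCountableTopology X] (hψ : IsInducing ψ)
    (hr : ∀ x, ∃ a, AE (tr ψ x) (Un (F a)))
    (hr' : ∀ a A, AE A (Un (F a)) → ∃ x, tr ψ x = A)
    (htask : ∀ c : Code, ∃ a, (task a).1 = c) :
    Split (OmegaCovers X) (TauCovers X) := by
  classical
  intro 𝒰 h𝒰
  obtain ⟨a₀, -⟩ := htask ∅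
  obtain ⟨x₀, -⟩ := hr' a₀ _ (AE.refl _)
  have : Nonempty X := ⟨x₀⟩
  obtain ⟨𝒰', h𝒰', hc, hfin⟩ := exists_countable_omega h𝒰
  have huniv : ∀ u ∈ 𝒰', ∃ x, x ∉ u := by
    intro u hu
    by_contra hcon
    push Not at hcon
    exact h𝒰.1.2.2 (eq_univ_of_forall hcon ▸ h𝒰' hu)
  have hinf : 𝒰'.Infinite := by
    intro hf
    choose! g hg using huniv
    obtain ⟨u, hu, hgu⟩ := hfin (g '' 𝒰') (hf.image g)
    exact hg u hu (hgu ⟨u, hu, rfl⟩)
  have : Countable 𝒰' := hc.to_subtype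
  have : Infinite 𝒰' := hinf.to_subtype
  obtain ⟨φ⟩ : Nonempty (ℕ ≃ 𝒰') := by
    have := Classical.choice (nonempty_denumerable 𝒰')
    exact ⟨(Denumerable.eqv 𝒰').symm⟩
  let e : ℕ → Set X := fun k => (φ k : Set X)
  have heinj : Function.Injective e := Subtype.val_injective.comp φ.injective
  have heU : ∀ k, e k ∈ 𝒰' := fun k => (φ k).2
  have hesurj : ∀ u ∈ 𝒰', ∃ k, e k = u := by
    intro u hu
    refine ⟨φ.symm ⟨u, hu⟩, ?_⟩
    show (φ (φ.symm ⟨u, hu⟩) : Set X) = u
    rw [Equiv.apply_symm_apply]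
  have heopen : ∀ k, IsOpen (e k) := fun k => h𝒰.1.1 _ (h𝒰' (heU k))
  choose U hU hUe using fun k => open_to_fam hψ (heopen k)
  obtain ⟨c, hcU⟩ := exists_code U hU
  obtain ⟨a, ha⟩ := htask c
  have hfam : ∀ k, fam (task a).1 k = U k := fun k => by rw [ha]; exact hcU k
  obtain ⟨hblock, hAR, -, hcase⟩ := hF a
  rcases hcase with ⟨F0, hF0, hF0Y, hF0fin⟩ | ⟨n, hn, hn1, hn2⟩
  · -- this case is impossible, as `𝒰'` is an omega-cover
    exfalso
    have hpt : ∀ A ∈ F0, ∃ x, tr ψ x = A := by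
      intro A hA
      rcases hF0Y A hA with h | ⟨b, -, h⟩
      · exact hr' a A h
      · exact hr' b A h
    choose! g hg using hpt
    have hy : ∀ k, ∃ x, x ∉ e k := fun k => huniv _ (heU k)
    choose y hy using hy
    obtain ⟨u, hu, hsub⟩ := hfin (g '' F0 ∪ y '' {n | F0 ⊆ fam (task a).1 n})
      ((hF0.image g).union (hF0fin.image y))
    obtain ⟨m, rfl⟩ := hesurj u hu
    have hm : F0 ⊆ fam (task a).1 m := by
      intro A hA
      rw [hfam, ← hg A hA, ← hUe]
      exact hsub (Or.inl ⟨A, hA, rfl⟩)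
    exact hy m (hsub (Or.inr ⟨m, hm, rfl⟩))
  · -- the traces
    let V : ℕ → Set X := fun k => e (n k)
    have hVinj : Function.Injective V := heinj.comp hn.injective
    have hVU : ∀ k, V k ∈ 𝒰 := fun k => h𝒰' (heU _)
    have hVmem : ∀ k x, x ∈ V k ↔ tr ψ x ∈ fam (task a).1 (n k) := by
      intro k x
      rw [hfam]
      exact hUe (n k) x
    have htrace : ∀ x, ∃ L : Set ℕ, L.Infinite ∧ (∀ i, 2*i ∈ L ↔ 2*i+1 ∈ L) ∧
        (L = univ ∨ AE (tr ψ x) (UnL (F a) L)) ∧ ∀ᶠ k in atTop, (x ∈ V k ↔ k ∈ L) := by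
      intro x
      simp only [hVmem]
      obtain ⟨b, hb⟩ := hr x
      rcases lt_trichotomy b a with h | h | h
      · refine ⟨univ, infinite_univ, by simp, Or.inl rfl, ?_⟩
        filter_upwards [hn1 b h _ hb] with k hk
        exact iff_of_true hk trivial
      · subst h
        refine ⟨univ, infinite_univ, by simp, Or.inl rfl, ?_⟩
        rcases hn2 univ infinite_univ (tr ψ x) (by rw [UnL_univ]; exact hb) with h | h
        · filter_upwards [h] with k hk
          exact iff_of_true hk trivial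
        · exact h
      · obtain ⟨L, hL1, hL2, hL3⟩ := exists_index_set (hF b).1 ((hF b).2.1 a h)
        have h3 : AE (tr ψ x) (UnL (F a) L) := hb.trans hL3
        rcases hn2 L hL1 _ h3 with h4 | h4
        · refine ⟨univ, infinite_univ, by simp, Or.inl rfl, ?_⟩
          filter_upwards [h4] with k hk
          exact iff_of_true hk trivial
        · exact ⟨L, hL1, hL2, Or.inr h3, h4⟩
    choose L hL1 hL2 hL3 hL4 using htrace
    have hLlin : ∀ y z, (L y \ L z).Finite ∨ (L z \ L y).Finite := by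
      intro y z
      rcases hL3 y with hy | hy
      · right; rw [hy]; simp
      rcases hL3 z with hz | hz
      · left; rw [hz]; simp
      rcases tr_linear hF hr y z with h | h
      · left
        exact index_sdiff_finite hblock (hy.symm.sdiff_finite_of hz.symm h)
      · right
        exact index_sdiff_finite hblock (hz.symm.sdiff_finite_of hy.symm h)
    have hexc : ∀ x, {k | ¬ (x ∈ V k ↔ k ∈ L x)}.Finite := by
      intro x
      obtain ⟨K, hK⟩ := eventually_atTop.1 (hL4 x)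
      refine (Set.finite_lt_nat K).subset fun k hk => ?_
      by_contra hcon
      exact hk (hK k (not_lt.1 hcon))
    have hKlin : ∀ y z, (L y \ L z).Finite → {k | y ∈ V k ∧ z ∉ V k}.Finite := by
      intro y z h
      refine ((h.union (hexc y)).union (hexc z)).subset ?_
      rintro k ⟨hk1, hk2⟩
      by_cases h1 : (y ∈ V k ↔ k ∈ L y)
      · by_cases h2 : (z ∈ V k ↔ k ∈ L z)
        · exact Or.inl (Or.inl ⟨h1.1 hk1, fun h => hk2 (h2.2 h)⟩)
        · exact Or.inr h2
      · exact Or.inl (Or.inr h1)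
    have hpar : ∀ x, {i | 2*i ∈ L x}.Infinite := by
      intro x hfin
      refine hL1 x (((hfin.image fun i => 2*i).union (hfin.image fun i => 2*i+1)).subset ?_)
      intro k hk
      rcases Nat.even_or_odd' k with ⟨i, hi | hi⟩
      · exact Or.inl ⟨i, by show 2*i ∈ L x; rwa [← hi], hi.symm⟩
      · exact Or.inr ⟨i, (hL2 x i).2 (by rwa [← hi]), hi.symm⟩
    have hVinf : ∀ p < 2, ∀ x, {i | x ∈ V (2*i+p)}.Infinite := by
      intro p hp x
      have h1 : {i | 2*i+p ∈ L x}.Infinite := by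
        rcases (show p = 0 ∨ p = 1 by omega) with rfl | rfl
        · exact hpar x
        · refine (hpar x).mono fun i hi => (hL2 x i).1 hi
      have h2 : {i | ¬ (x ∈ V (2*i+p) ↔ 2*i+p ∈ L x)}.Finite := by
        refine Set.Finite.of_finite_image ((hexc x).subset ?_)
          (f := fun i => 2*i+p) (fun a _ b _ h => by simpa using h)
        rintro _ ⟨i, hi, rfl⟩
        exact hi
      refine (h1.sdiff h2).mono ?_
      rintro i ⟨hi1, hi2⟩
      have hi2' : x ∈ V (2*i+p) ↔ 2*i+p ∈ L x := not_not.1 hi2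
      exact hi2'.2 hi1
    have htau : ∀ p < 2, (range fun i => V (2*i+p)) ∈ TauCovers X := by
      intro p hp
      have hlarge : ∀ x, {v ∈ range fun i => V (2*i+p) | x ∈ v}.Infinite := by
        intro x
        have hinj : Function.Injective fun i => V (2*i+p) := by
          intro i j hij
          have := hVinj hij
          omega
        refine ((hVinf p hp x).image hinj.injOn).mono ?_
        rintro _ ⟨i, hi, rfl⟩
        exact ⟨⟨i, rfl⟩, hi⟩
      refine ⟨⟨?_, ?_, ?_⟩, hlarge, ?_⟩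
      · rintro _ ⟨i, rfl⟩
        exact heopen _
      · refine eq_univ_of_forall fun x => ?_
        obtain ⟨v, hv, hxv⟩ := (hlarge x).nonempty
        exact ⟨v, hv, hxv⟩
      · rintro ⟨i, hi⟩
        exact h𝒰.1.2.2 (hi ▸ hVU _)
      · intro y z
        have aux : ∀ y z : X, {k | y ∈ V k ∧ z ∉ V k}.Finite →
            {v ∈ range fun i => V (2*i+p) | y ∈ v ∧ z ∉ v}.Finite := by
          intro y z h
          refine (h.image V).subset ?_
          rintro _ ⟨⟨i, rfl⟩, hi⟩
          exact ⟨2*i+p, hi, rfl⟩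
        rcases hLlin y z with h | h
        · exact Or.inl (aux y z (hKlin y z h))
        · exact Or.inr (aux z y (hKlin z y h))
    refine ⟨𝒰 \ (range fun i => V (2*i+1)), range fun i => V (2*i+1), ?_, disjoint_sdiff_left,
      ⟨_, htau 0 (by omega), ?_⟩, ⟨_, htau 1 (by omega), Subset.rfl⟩⟩
    · refine Set.sdiff_union_of_subset ?_
      rintro _ ⟨i, rfl⟩
      exact hVU _
    · rintro _ ⟨i, rfl⟩
      refine ⟨hVU _, ?_⟩
      rintro ⟨j, hj⟩
      have := hVinj hj
      omega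

/-- `Split(T, Gamma)` fails for the tower space. -/
theorem tower_not_split_tau_gamma (hψ : IsInducing ψ)
    (hr : ∀ x, ∃ a, AE (tr ψ x) (Un (F a)))
    (hr' : ∀ a A, AE A (Un (F a)) → ∃ x, tr ψ x = A)
    (htask : ∀ z : Set ℕ, ∃ a, (task a).2 = z) :
    ¬ Split (TauCovers X) (GammaCovers X) := by
  intro hsplit
  obtain ⟨a₀, -⟩ := htask ∅
  let g : ℕ → Set X := fun n => {x | n ∈ tr ψ x}
  have hmod : ∀ n m : ℕ, n ≠ m → ∃ x, n ∈ tr ψ x ∧ m ∉ tr ψ x := by
    intro n m hnm
    obtain ⟨x, hx⟩ := hr' a₀ (insert n (Un (F a₀)) \ {m}) ⟨by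
      refine (finite_singleton n).subset ?_
      rintro i ⟨⟨hi | hi, -⟩, hi2⟩
      · exact hi
      · exact absurd hi hi2, by
      refine (finite_singleton m).subset ?_
      rintro i ⟨hi1, hi2⟩
      by_contra hcon
      exact hi2 ⟨Or.inr hi1, hcon⟩⟩
    refine ⟨x, ?_, ?_⟩
    · rw [hx]; exact ⟨Or.inl rfl, hnm⟩
    · rw [hx]; exact fun h => h.2 rfl
  have hginj : Function.Injective g := by
    intro n m hnm
    by_contra hcon
    obtain ⟨x, hx1, hx2⟩ := hmod n m hcon
    have : x ∈ g n := hx1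
    rw [hnm] at this
    exact hx2 this
  have htrinf : ∀ x, (tr ψ x).Infinite := by
    intro x hfin
    obtain ⟨a, ha⟩ := hr x
    refine (hF a).1.infinite_Un ((hfin.union ha.2).subset fun n hn => ?_)
    by_cases h : n ∈ tr ψ x
    · exact Or.inl h
    · exact Or.inr ⟨hn, h⟩
  have hlarge : ∀ x, {v ∈ range g | x ∈ v}.Infinite := by
    intro x
    refine ((htrinf x).image hginj.injOn).mono ?_
    rintro _ ⟨n, hn, rfl⟩
    exact ⟨⟨n, rfl⟩, hn⟩
  have htau : range g ∈ TauCovers X := by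
    refine ⟨⟨?_, ?_, ?_⟩, hlarge, ?_⟩
    · rintro _ ⟨n, rfl⟩
      exact coord_open hψ n
    · refine eq_univ_of_forall fun x => ?_
      obtain ⟨v, hv, hxv⟩ := (hlarge x).nonempty
      exact ⟨v, hv, hxv⟩
    · rintro ⟨n, hn⟩
      obtain ⟨x, -, hx2⟩ := hmod (n+1) n (by omega)
      have : x ∈ g n := by rw [hn]; trivial
      exact hx2 this
    · intro y z
      have aux : ∀ y z : X, (tr ψ y \ tr ψ z).Finite → {v ∈ range g | y ∈ v ∧ z ∉ v}.Finite := by
        intro y z h
        refine (h.image g).subset ?_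
        rintro _ ⟨⟨n, rfl⟩, hn⟩
        exact ⟨n, hn, rfl⟩
      exact (tr_linear hF hr y z).imp (aux y z) (aux z y)
  obtain ⟨V, W, hVW, -, ⟨V', hV', hVV⟩, -⟩ := hsplit _ htau
  have hV'g : V' ⊆ range g := fun v hv => hVW ▸ Or.inl (hVV hv)
  obtain ⟨-, hV'inf, hV'fin⟩ := hV'
  let Z : Set ℕ := {n | g n ∈ V'}
  have hZinf : Z.Infinite := by
    intro hfin
    refine hV'inf ((hfin.image g).subset fun v hv => ?_)
    obtain ⟨n, rfl⟩ := hV'g hv
    exact ⟨n, hv, rfl⟩
  obtain ⟨a, ha⟩ := htask Z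
  have h1 := (hF a).2.2.1 (by rw [ha]; exact hZinf)
  rw [ha] at h1
  obtain ⟨x, hx⟩ := hr' a _ (AE.refl _)
  refine h1 ?_
  rw [← hx]
  refine Set.Finite.of_finite_image ((hV'fin x).subset ?_) hginj.injOn
  rintro _ ⟨n, ⟨hn1, hn2⟩, rfl⟩
  exact ⟨hn1, hn2⟩

end Tower

end Pool.Agent.Helper55
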